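import Pool.Agent.H15.G.R_seed8.TH641.EN.E
import Pool.Agent.H15.G.R_seed8.TH335.EN.EndS
import Pool.Agent.H15.G.R_seed8.TH641.NW.Inst

/-! The two ends for `N` points of arbitrary multiplicities `v` and `c` spectators of one
multiplicity `μ`, `n = 4 N + c`. -/

set_option autoImplicit false

namespace Pool.Agent.X214.NU

open Finset Pool.Agent.TH176.Nag Pool.Agent.TH603.Sur Pool.Agent.TH603.Cut Pool.Agent.TH181.NagM
open Pool.Agent.TH648.SH Pool.Agent.TH760.EN Filter Topology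

/-- **the end `E`** -/
theorem E_end1 {N c : ℕ} (hc : 1 ≤ c) (hE : HE c) {n μ d : ℕ} (v : Fin N → ℕ) (hn : n = 4 * N + c)
    (h36 : 36 ≤ n) (hlt : √(n : ℝ) * d < 2 * ((∑ j, v j : ℕ) : ℝ) + c * μ) :
    Emp (Sum.elim v (fun _ : Fin c => μ)) (TZ d) := by
  have hnR : (36 : ℝ) ≤ n := by exact_mod_cast h36
  have hcR : (1 : ℝ) ≤ c := by exact_mod_cast hc
  have hnac : (n : ℝ) = 4 * N + c := by rw [hn]; push_cast; ring
  obtain ⟨s, hs⟩ : ∃ s : ℝ, s = √(n : ℝ) := ⟨_, rfl⟩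
  have hss : s * s = n := by rw [hs]; exact Real.mul_self_sqrt (by linarith)
  have hs6 : 6 ≤ s := by rw [hs]; exact Real.le_sqrt_of_sq_le (by norm_num; linarith)
  rw [← hs] at hlt
  obtain ⟨v', τ, α, h4, h5, -, h6⟩ := Pool.Agent.TH641.NW.exists_tau (3 / 2 * s) d
  refine Pool.Agent.TH641.NW.keyE _ _ d τ h4 h5 ?_
  rw [h6]
  refine Emp_regA 1 v' 1 0 (by norm_num) (by norm_num) ?_ ?_ ?_ (α' := α)
    (β' := α + s * d / 2) (μ' := 3 / 2 * s) (ν' := s * (3 / 2 * s - 9) / 6) ?_ ?_ ?_ ?_ ?_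
  · push_cast; linarith
  · push_cast; linarith
  · linarith
  · push_cast; ring
  · push_cast; ring
  · push_cast; ring
  · push_cast; ring
  · refine Pool.Agent.TH648.SH.Emp_absorbs N v α (3 / 2 * s) ?_ ?_
    · have : 3 / 2 * s + s * (3 / 2 * s - 9) / 6 = (s * s) / 4 := by ring
      rw [this, hss, hnac]
      linarith
    · refine Pool.Agent.TH641.EN.Emp_Reg_QQ ?_ ?_ hE
      · have : 3 / 2 * s - N + s * (3 / 2 * s - 9) / 6 = (s * s) / 4 - N := by ring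
        rw [this, hss, hnac]
        ring
      · linarith

/-- the triangle of slope `n / 4`, `n = 4 N + c` -/
def QV (N c b : ℕ) (Z : ℤ) : Set (ℤ × ℤ) :=
  {p | 0 ≤ p.1 ∧ 0 ≤ p.2 ∧ p.2 ≤ (b : ℤ) ∧ 4 * p.1 + (4 * (N : ℤ) + c) * p.2 + 4 ≤ Z}

theorem Sur_tri {N c : ℕ} (h : HS c) {μ b : ℕ} (v : Fin N → ℕ) (hv : ∀ i, b ≤ v i ∧ v i ≤ b + 1)
    (h1 : b ≤ 2 * μ + 1) (h2 : 2 * μ ≤ b + 1) : Sur (Sum.elim v (fun _ : Fin c => μ))
      (QV N c b (4 * ((∑ j, v j : ℕ) : ℤ) + 2 * c * μ + c)) := by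
  obtain ⟨V, hV⟩ : ∃ V : ℤ, V = ((∑ j, v j : ℕ) : ℤ) := ⟨_, rfl⟩
  rw [← hV]
  have hVb : (N : ℤ) * b ≤ V := by
    rw [hV]
    have : ∑ _j : Fin N, b ≤ ∑ j, v j := sum_le_sum fun i _ => (hv i).1
    simp only [sum_const, card_univ, Fintype.card_fin, smul_eq_mul] at this
    exact_mod_cast this
  have hS1 : Sur v {p : ℤ × ℤ | 0 ≤ p.1 ∧ 0 ≤ p.2 ∧ p.1 < V - N * p.2 ∧ p.2 ≤ b} := by
    apply Sur_rows _ 0
    intro k j hj
    have hk : k ≤ b := by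
      by_contra hcon
      have : ∑ i, (v i - k) = 0 := sum_eq_zero fun i _ => by
        have := (hv i).2
        omega
      omega
    have h3 : ∑ i, (v i - k) + N * k = ∑ i, v i := by
      have : N * k = ∑ _i : Fin N, k := by simp
      rw [this, ← sum_add_distrib]
      exact sum_congr rfl fun i _ => Nat.sub_add_cancel (hk.trans (hv i).1)
    refine ⟨by simp, by simp, ?_, by simp only; omega⟩
    simp only [zero_add]
    rw [hV, ← h3]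
    push_cast
    have : (j : ℤ) < ((∑ i, (v i - k) : ℕ) : ℤ) := by exact_mod_cast hj
    push_cast at this
    linarith
  have hS2 : Sur (fun _ : Fin c => μ)
      {p : ℤ × ℤ | 0 ≤ p.2 ∧ V - N * p.2 ≤ p.1 ∧ p.2 < 2 * μ ∧
        4 * p.1 + (4 * (N : ℤ) + c) * p.2 + 4 ≤ 4 * V + 2 * c * μ + c} := by
    refine (h μ).comap 1 N 0 1 (-V) 0 (by norm_num) ?_
    rintro ⟨i, y⟩ ⟨k1, k2, k3, k4⟩
    simp only at k1 k2 k3 k4
    refine ⟨(i + (V - N * y), y), ⟨k2, ?_, k3, ?_⟩, ?_⟩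
    · simp only
      linarith
    · simp only
      linarith
    · simp only [Prod.mk.injEq]
      exact ⟨by ring, by ring⟩
  have key : ∀ y : ℤ, 0 ≤ y → y < 2 * μ → 0 ≤ V - N * y := by
    intro y hy hy2
    have h3 : y ≤ b := by omega
    have h4 : (N : ℤ) * y ≤ N * b := mul_le_mul_of_nonneg_left h3 (by positivity)
    linarith
  have h3 := Pool.Agent.TH335.EN.Sur_cut (fun p hp => ⟨hp.1, hp.2.1⟩)
    (fun p hp => ⟨by have := key p.2 hp.1 hp.2.2.1; linarith [hp.2.1], hp.1⟩) 1 N ?_ hS1 hS2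
  · refine h3.mono ?_
    rintro p (⟨k1, k2, k3, k4⟩ | ⟨k1, k2, k3, k4⟩)
    · refine ⟨k1, k2, k4, ?_⟩
      have k5 : (c : ℤ) * p.2 ≤ c * (2 * μ + 1) := mul_le_mul_of_nonneg_left (by omega) (by positivity)
      linarith
    · refine ⟨?_, k1, by omega, k4⟩
      have := key p.2 k1 k3
      linarith
  · rintro p ⟨k1, k2, k3, k4⟩ p' ⟨k1', k2', k3', k4'⟩
    linarith

theorem Sur_regO {N c : ℕ} (h : HS c) {μ b : ℕ} (v : Fin N → ℕ) (hv : ∀ i, b ≤ v i ∧ v i ≤ b + 1)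
    (h1 : b ≤ 2 * μ + 1) (h2 : 2 * μ ≤ b + 1) {s α B : ℝ} (hs : N + (c : ℝ) / 4 ≤ s ^ 2)
    (hB : (2 * (((∑ j, v j : ℕ) : ℝ) + N) + c * (μ + 1)) / 2 + (b + 1) * (s ^ 2 - (N + (c : ℝ) / 4)) < B) :
    Sur (Sum.elim v (fun _ : Fin c => μ)) (RegO α (α + B) 0 (s ^ 2)) := by
  refine (Sur_tri h v hv h1 h2).shift (-(⌊α⌋ + 1)) (-1) ?_
  rintro ⟨x, y⟩ ⟨k1, k2, k3, k4⟩
  simp only at k1 k2 k3 k4
  have k1' : (0 : ℝ) ≤ x := by exact_mod_cast k1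
  have k2' : (0 : ℝ) ≤ y := by exact_mod_cast k2
  have k3' : (y : ℝ) ≤ b := by exact_mod_cast k3
  have k4' : 4 * (x : ℝ) + (4 * N + c) * y + 4 ≤ 4 * ((∑ j, v j : ℕ) : ℝ) + 2 * c * μ + c := by
    exact_mod_cast k4
  have f1 := Int.floor_le α
  have f2 := Int.lt_floor_add_one α
  refine ⟨by simp only; omega, ?_, ?_⟩
  · simp only
    push_cast
    linarith
  · simp only
    push_cast
    push_cast at k4' hB
    have k5 : (s ^ 2 - (N + (c : ℝ) / 4)) * (y + 1) ≤ (s ^ 2 - (N + (c : ℝ) / 4)) * (b + 1) :=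
      mul_le_mul_of_nonneg_left (by linarith) (by linarith)
    linarith

theorem Sur_plane_irr {N c : ℕ} (h : HS c) {μ b : ℕ} (v : Fin N → ℕ) (hv : ∀ i, b ≤ v i ∧ v i ≤ b + 1)
    (h1 : b ≤ 2 * μ + 1) (h2 : 2 * μ ≤ b + 1) {d : ℕ} {r : ℝ} (hr : 3 ≤ r)
    (hirr : Irrational r) (hs : N + (c : ℝ) / 4 ≤ r ^ 2)
    (hB : (2 * (((∑ j, v j : ℕ) : ℝ) + N) + c * (μ + 1)) / 2 + (b + 1) * (r ^ 2 - (N + (c : ℝ) / 4)) <
      r * (d + 3)) :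
    Sur (Sum.elim v (fun _ : Fin c => μ)) (TZ d) := by
  have hr0 : 0 < r := by linarith
  obtain ⟨L, hL⟩ : ∃ L : ℝ, L = (2 * (((∑ j, v j : ℕ) : ℝ) + N) + c * (μ + 1)) / 2 +
    (b + 1) * (r ^ 2 - (N + (c : ℝ) / 4)) := ⟨_, rfl⟩
  rw [← hL] at hB
  have hL0 : 0 ≤ L := by
    rw [hL]
    have h1 : 0 ≤ r ^ 2 - (N + (c : ℝ) / 4) := by linarith
    positivity
  have hc0 : 0 ≤ L / r := by positivity
  have hcd : L / r < d + 3 := by
    rw [div_lt_iff₀ hr0]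
    linarith
  have hSP : SP (Sum.elim v (fun _ : Fin c => μ)) (L / r) 0 (r ^ 2) := by
    refine ⟨by positivity, fun E hE α => ?_⟩
    rw [zero_add, Real.sqrt_sq hr0.le]
    apply Sur_regO h v hv h1 h2 hs
    rw [← hL]
    rwa [div_lt_iff₀ hr0] at hE
  obtain ⟨k, τ, hk, h0, h1⟩ := exists_tau r
  have h2 := (Mv_tau hr k hk).closed (SP_closed hc0) hSP
  have h3 := h2.2 ((d : ℝ) + 3) hcd (-(((d : ℝ) + 3) * (1 + τ)))
  have e1 : 3 * (1 + τ) + 3 * (2 - τ) = (3 : ℝ) ^ 2 := by ring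
  rw [e1, Real.sqrt_sq (by norm_num)] at h3
  have e2 : -(((d : ℝ) + 3) * (1 + τ)) + ((d : ℝ) + 3) * 3 = ((d : ℝ) + 3) * (2 - τ) := by ring
  rw [e2] at h3
  refine Sur_keyO h0 h1 ?_ h3
  intro hq
  obtain ⟨q, hq⟩ := hq
  apply hirr
  refine ⟨(k + 3 * q) / 3, ?_⟩
  push_cast
  rw [hq]
  linarith

/-- **the end `S`** -/
theorem S_end {N c : ℕ} (h : HS c) {n μ b d : ℕ} (v : Fin N → ℕ) (hv : ∀ i, b ≤ v i ∧ v i ≤ b + 1)
    (h1 : b ≤ 2 * μ + 1) (h2 : 2 * μ ≤ b + 1) (hn : n = 4 * N + c) (h36 : 36 ≤ n)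
    (hd : 2 * (((∑ j, v j : ℕ) : ℝ) + N) + c * (μ + 1) < √(n : ℝ) * (d + 3)) :
    Sur (Sum.elim v (fun _ : Fin c => μ)) (TZ d) := by
  have hn' : (n : ℝ) = 4 * N + c := by rw [hn]; push_cast; ring
  have hn36' : (36 : ℝ) ≤ n := by exact_mod_cast h36
  obtain ⟨A, hA⟩ : ∃ A : ℝ, A = 2 * (((∑ j, v j : ℕ) : ℝ) + N) + c * (μ + 1) := ⟨_, rfl⟩
  obtain ⟨r₀, hr₀⟩ : ∃ r₀ : ℝ, r₀ = √(n : ℝ) / 2 := ⟨_, rfl⟩
  have hsq : √(n : ℝ) ^ 2 = n := Real.sq_sqrt (by linarith)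
  have hr₀2 : r₀ ^ 2 = N + (c : ℝ) / 4 := by
    rw [hr₀, div_pow, hsq, hn']; ring
  have hr₀3 : 3 ≤ r₀ := by
    have h1 : (6 : ℝ) ≤ √(n : ℝ) := by
      apply Real.le_sqrt_of_sq_le
      linarith
    rw [hr₀]; linarith
  rw [← hA] at hd
  -- a slightly larger slope
  have hcont : Filter.Tendsto (fun s : ℝ => s * ((d : ℝ) + 3) -
      (A / 2 + ((b : ℝ) + 1) * (s ^ 2 - (N + (c : ℝ) / 4)))) (𝓝 r₀)
      (𝓝 (r₀ * ((d : ℝ) + 3) -
        (A / 2 + ((b : ℝ) + 1) * (r₀ ^ 2 - (N + (c : ℝ) / 4))))) := by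
    apply Continuous.tendsto
    fun_prop
  have hpos : 0 < r₀ * ((d : ℝ) + 3) -
        (A / 2 + ((b : ℝ) + 1) * (r₀ ^ 2 - (N + (c : ℝ) / 4))) := by
    rw [hr₀2, hr₀]
    have e : (N + (c : ℝ) / 4) - (N + (c : ℝ) / 4) = 0 := sub_self _
    rw [e, mul_zero, add_zero]
    linarith
  have hev := hcont.eventually (Ioi_mem_nhds hpos)
  obtain ⟨ε, hε, hball⟩ := Metric.eventually_nhds_iff.1 hev
  obtain ⟨s, hs, hs1, hs2⟩ := exists_irrational_btwn (show r₀ < r₀ + ε by linarith)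
  have h2' := hball (y := s) (by rw [Real.dist_eq, abs_of_pos (by linarith)]; linarith)
  have h2'' : 0 < s * ((d : ℝ) + 3) -
      (A / 2 + ((b : ℝ) + 1) * (s ^ 2 - (N + (c : ℝ) / 4))) := h2'
  refine Sur_plane_irr h v hv h1 h2 (by linarith) hs ?_ (by rw [← hA]; linarith)
  rw [← hr₀2]
  exact pow_le_pow_left₀ (by linarith) hs1.le 2

end Pool.Agent.X214.NU
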