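import Pool.Agent.H15.G.R_pool_sql_team_seeded_64922ed1.X214.NU.FamC

/-! The family with two doublings, sharper form. -/

set_option autoImplicit false

namespace Pool.Agent.X214.NU

open Finset Pool.Agent.TH176.Nag Pool.Agent.TH603.Sur Pool.Agent.TH641.UM Pool.Agent.TH2.NU

/-- `inner` with two half-widths -/
theorem inner2 {n N c d m x0 x1 x2 p : ℕ} {H H' : ℝ} (hE : WE n N c d H) (hS : WS n N c d H')
    (hn : n = 4 * N + c) (hx : x0 + x1 + x2 = N) (h2 : 0 < x2) (hp : p ≤ x0) {T : ℝ}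
    (hT : T = √(n : ℝ) * (2 * d + 3) - ((2 * m + 1) * n + 2 * N))
    (hl : H' < T + 4 * p) (hu : T + 4 * p < 4 * x2 - H) : Sgn (Inn m c x0 x1 x2 p) d := by
  have hnN : (n : ℝ) = 4 * N + c := by rw [hn]; push_cast; ring
  obtain ⟨t, rfl⟩ := Nat.exists_eq_add_of_le hp
  have hNx : (N : ℝ) = p + t + x1 + x2 := by rw [← hx]; push_cast; ring
  unfold Inn
  rw [Nat.add_sub_cancel_left]
  refine Sgn_dbl h2 ?_ ?_
  · have k1 := hS (p • ({2 * m} : Multiset ℕ) + ((t + x1) • {2 * m + 1} + x2 • {2 * m + 1})) m (2 * m)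
      (by rw [card3]; omega) ?_ (by omega) (by omega) (by
        rw [sum3]
        rw [hT, hnN] at hl
        push_cast
        rw [hnN]
        rw [hNx] at hl ⊢
        linarith)
    · have e1 : p • ({2 * m} : Multiset ℕ) + ((t + x1) • {2 * m + 1} + x2 • {2 * m + 1}) + c • {m} =
          x1 • {2 * m + 1} + (x2 • {2 * m + 1} + (p • {2 * m} + (t • {2 * m + 1} + c • {m}))) := by
        rw [add_smul]
        abel
      rw [e1] at k1
      have k2 := exMS (by omega) k1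
      have e2 : x1 • r4 (2 * m + 1) + (x2 • ({2 * m + 1} : Multiset ℕ) +
          (p • {2 * m} + (t • {2 * m + 1} + c • {m}))) =
          x2 • {2 * m + 1} + (p • {2 * m} + (t • {2 * m + 1} + (x1 • r4 (2 * m + 1) + c • {m}))) := by
        abel
      rw [e2] at k2
      exact k2
    · intro a ha
      rw [Multiset.mem_add, Multiset.mem_add] at ha
      rcases ha with ha | ha | ha
      · have := Multiset.mem_singleton.1 (Multiset.mem_of_mem_nsmul ha)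
        omega
      · have := Multiset.mem_singleton.1 (Multiset.mem_of_mem_nsmul ha)
        omega
      · have := Multiset.mem_singleton.1 (Multiset.mem_of_mem_nsmul ha)
        omega
  · have k1 := hE (p • ({2 * m} : Multiset ℕ) + ((t + x1) • {2 * m + 1} + x2 • {2 * m + 1 + 1})) m
      (by rw [card3]; omega) (by
        rw [sum3]
        rw [hT, hnN] at hu
        push_cast
        rw [hnN]
        rw [hNx] at hu ⊢
        linarith)
    have e1 : p • ({2 * m} : Multiset ℕ) + ((t + x1) • {2 * m + 1} + x2 • {2 * m + 1 + 1}) + c • {m} =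
        x1 • {2 * m + 1} + (x2 • {2 * m + 1 + 1} + (p • {2 * m} + (t • {2 * m + 1} + c • {m}))) := by
      rw [add_smul]
      abel
    rw [e1] at k1
    have k2 := exM' (by omega) k1
    have e2 : x1 • r4 (2 * m + 1) + (x2 • ({2 * m + 1 + 1} : Multiset ℕ) +
        (p • {2 * m} + (t • {2 * m + 1} + c • {m}))) =
        x2 • {2 * m + 1 + 1} + (p • {2 * m} + (t • {2 * m + 1} + (x1 • r4 (2 * m + 1) + c • {m}))) := by
      abel
    rw [e2] at k2
    exact k2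

/-- the signs of the inner step, sharper form -/
theorem Inn_sign2 {n N m c x0 x1 x2 p d : ℕ} (hn : n = 4 * N + c) (hn36 : 36 ≤ n)
    (hx : x0 + x1 + x2 = N) (hp : p ≤ x0) (hm : n ≤ 2 * m + 18) {T : ℝ}
    (hT : T = √(n : ℝ) * (2 * d + 3) - ((2 * m + 1) * n + 2 * N)) :
    (10 * (2 * N + 2 * x2) ^ 2 + 10 * n * c + 12 * N + 15 + 102 * n ≤ 6 * n * n + 10 * n + 40 * n * x2 →
      -5 < T + 4 * p - 2 * x2 → T + 4 * p - 2 * x2 ≤ -0.3 →
      (d + 2).choose 2 ≤ Pool.Agent.TH2.NU.condM (Inn m c x0 x1 x2 p)) ∧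
    (400 * x2 + 25 + 1440 ≤ 80 * n + 100 * c → 0.4 ≤ T + 4 * p - 2 * x2 →
      Pool.Agent.TH2.NU.condM (Inn m c x0 x1 x2 p) ≤ (d + 2).choose 2) := by
  have e1 := cond_Inn (m := m) (c := c) (x0 := x0) (x1 := x1) (x2 := x2) hp
  have e2 := card_sq n d
  have hNx : (N : ℝ) = x0 + x1 + x2 := by rw [← hx]; push_cast; ring
  have hnx : (n : ℝ) = 4 * (x0 + x1 + x2) + c := by rw [hn, ← hx]; push_cast; ring
  have hnN : (n : ℝ) = 4 * N + c := by rw [hn]; push_cast; ring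
  have e3 := Inn_id m c x0 x1 x2 p
  obtain ⟨τ, hτ⟩ : ∃ τ : ℝ, τ = T + 4 * p - 2 * x2 := ⟨_, rfl⟩
  have e4 : √(n : ℝ) * (2 * d + 3) = (2 * m + 1) * n + 2 * N + (2 * x2 - 4 * p) + τ := by
    rw [hτ, hT]; ring
  rw [← hτ]
  rw [e4] at e2
  rw [← hnx, ← hNx] at e3
  rw [← hNx] at e1
  have hn0 : (36 : ℝ) ≤ n := by exact_mod_cast hn36
  have hmR : (n : ℝ) ≤ 2 * m + 18 := by exact_mod_cast hm
  have hc0 : (0 : ℝ) ≤ c := Nat.cast_nonneg c
  have hp0 : (0 : ℝ) ≤ p := Nat.cast_nonneg p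
  have hx20 : (0 : ℝ) ≤ x2 := Nat.cast_nonneg x2
  have hN0 : (0 : ℝ) ≤ N := Nat.cast_nonneg N
  have hpN : (p : ℝ) + x2 ≤ N := by
    have : p + x2 ≤ N := by omega
    exact_mod_cast this
  obtain ⟨y, hy⟩ : ∃ y : ℝ, y = 2 * N + (2 * x2 - 4 * p) := ⟨_, rfl⟩
  obtain ⟨G, hG⟩ : ∃ G : ℝ, G = (2 * m + 1) * n + 2 * N + (2 * x2 - 4 * p) := ⟨_, rfl⟩
  obtain ⟨Δ, hΔ⟩ : ∃ Δ : ℝ, Δ = (-4 * (N : ℝ) ^ 2 - 4 * N * c + 4 * N + c - c ^ 2 +
        16 * p * N + 8 * x2 * N + 4 * x2 * c - (2 * x2 - 4 * p) ^ 2) := ⟨_, rfl⟩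
  have hΔ' : Δ = 4 * n * x2 - n * c + n - y ^ 2 := by rw [hΔ, hy, hnN]; ring
  have hG' : G = (2 * m + 1) * n + y := by rw [hG, hy]; ring
  rw [← hG, ← hΔ] at e3
  rw [← hG] at e2
  have hexp : (G + τ) ^ 2 = G ^ 2 + τ * (2 * G + τ) := by ring
  have e5 : 8 * (n : ℝ) * ((Pool.Agent.TH2.NU.condM (Inn m c x0 x1 x2 p) : ℕ) : ℝ) = G ^ 2 + Δ - n := by
    have : 8 * (n : ℝ) * ((Pool.Agent.TH2.NU.condM (Inn m c x0 x1 x2 p) : ℕ) : ℝ) =
      4 * n * (2 * ((Pool.Agent.TH2.NU.condM (Inn m c x0 x1 x2 p) : ℕ) : ℝ)) := by ring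
    rw [this, e1]
    linarith
  have hy1 : -(2 * (N : ℝ)) ≤ y := by rw [hy]; linarith
  have hy2 : y ≤ 2 * N + 2 * x2 := by rw [hy]; linarith
  have hmn : (n - 17) * (n : ℝ) ≤ (2 * m + 1) * n := mul_le_mul_of_nonneg_right (by linarith) (by linarith)
  have hG0 : 5 ≤ G := by rw [hG']; nlinarith
  clear hΔ hG e1 e3 hτ hT e4
  constructor
  · intro g1 h1 h2
    have g1R : 10 * (2 * (N : ℝ) + 2 * x2) ^ 2 + 10 * n * c + 12 * N + 15 + 102 * n ≤
        6 * n * n + 10 * n + 40 * n * x2 := by exact_mod_cast g1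
    have h : 8 * (n : ℝ) * (((d + 2).choose 2 : ℕ) : ℝ) ≤
        8 * n * ((Pool.Agent.TH2.NU.condM (Inn m c x0 x1 x2 p) : ℕ) : ℝ) := by
      rw [e2, e5, hexp]
      have h3 : τ * (2 * G + τ) ≤ -0.3 * (2 * G + τ) :=
        mul_le_mul_of_nonneg_right h2 (by linarith)
      have h4 : y ^ 2 ≤ (2 * (N : ℝ) + 2 * x2) ^ 2 := by
        apply sq_le_sq'
        · linarith
        · exact hy2
      rw [hΔ']
      rw [hG'] at h3 ⊢
      linarith
    have h2 := le_of_mul_le_mul_left h (by positivity)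
    exact_mod_cast h2
  · intro g2 h1
    have g2R : 400 * (x2 : ℝ) + 25 + 1440 ≤ 80 * n + 100 * c := by exact_mod_cast g2
    have h : 8 * n * ((Pool.Agent.TH2.NU.condM (Inn m c x0 x1 x2 p) : ℕ) : ℝ) ≤
        8 * (n : ℝ) * (((d + 2).choose 2 : ℕ) : ℝ) := by
      rw [e2, e5, hexp]
      have h3 : 0.4 * (2 * G + τ) ≤ τ * (2 * G + τ) :=
        mul_le_mul_of_nonneg_right h1 (by linarith)
      have h4 := mul_le_mul_of_nonneg_right g2R (by linarith : (0 : ℝ) ≤ n)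
      have h5 := sq_nonneg (y + 0.4)
      rw [hΔ']
      rw [hG'] at h3 ⊢
      nlinarith
    have h2 := le_of_mul_le_mul_left h (by positivity)
    exact_mod_cast h2

/-- lowering one point of some clusters -/
theorem SurM_q_r {r m : ℕ} {M : Multiset ℕ} {S : Set (ℤ × ℤ)}
    (h : SurM (r • q4 (2 * m + 1) + M) S) : SurM (r • r4 (2 * m + 1) + M) S := by
  have e0 : (r * 2) • ({m + 1} : Multiset ℕ) = r • {m + 1} + r • {m + 1} := by
    rw [mul_two, add_smul]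
  have e1 : r • q4 (2 * m + 1) + M =
      r • {m + 1} + ((r * 2) • ({m} : Multiset ℕ) + (r • {m + 1} + M)) := by
    rw [q4_1, smul_add, smul_smul, smul_smul, e0]
    abel
  rw [e1] at h
  have h1 := h.lower (Nat.le_succ m)
  have e2 : r • ({m} : Multiset ℕ) + ((r * 2) • {m} + (r • {m + 1} + M)) =
      r • r4 (2 * m + 1) + M := by
    rw [r4_1, smul_add, smul_smul]
    have : r * 3 = r + r * 2 := by ring
    rw [this, add_smul]
    abel
  rw [e2] at h1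
  exact h1

/-- family `C`, sharper form -/
theorem fam_C2 {n N c d m q x0 x1 x2 x1' x2' : ℕ} {H H' : ℝ} (hE : WE n N c d H)
    (hS : WS n N c d H') (hn : n = 4 * N + c) (hn36 : 36 ≤ n) (hx : x0 + x1 + x2 = N)
    (hx' : x0 + x1' + x2' = N) (hxx : x2 ≤ x2') (hm : n ≤ 2 * m + 18) (h2 : 0 < x2)
    (hx0 : 2 ≤ x0) (c1 : 4.3 + H' ≤ 2 * x2) (c2 : H < 2 * x2 + 0.3) (c3 : 4.4 + H ≤ 2 * x2')
    (c4 : H' < 2 * x2' + 0.4) (c5 : 2 * (x2' : ℝ) + 0.4 + 2.95 ≤ 2 * x2 + 2 * x0)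
    (g1 : 10 * (2 * N + 2 * x2) ^ 2 + 10 * n * c + 12 * N + 15 + 102 * n ≤
      6 * n * n + 10 * n + 40 * n * x2)
    (g2 : 400 * x2' + 25 + 1440 ≤ 80 * n + 100 * c)
    (hqx : q + x0 = N + x2) {w : Fin n → ℕ}
    (hw : ∀ i, w i = m ∨ w i = m + 1) (hq : ∑ i, w i = n * m + q)
    (hu1 : -2.95 ≤ √(n : ℝ) * (2 * d + 3) - (n + 2 * (n * m + q)))
    (hu2 : √(n : ℝ) * (2 * d + 3) - (n + 2 * (n * m + q)) ≤ 2.1) : Good w d := by
  obtain ⟨hqn, hms⟩ := ms_near hw hq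
  obtain ⟨T, hT⟩ : ∃ T : ℝ, T = √(n : ℝ) * (2 * d + 3) - ((2 * m + 1) * n + 2 * N) := ⟨_, rfl⟩
  have hqR : (q : ℝ) = N + x2 - x0 := by
    have : (q : ℝ) + x0 = N + x2 := by exact_mod_cast hqx
    linarith
  have hTu : T = √(n : ℝ) * (2 * d + 3) - (n + 2 * (n * m + q)) + 2 * (x2 - x0) := by
    rw [hT, hqR]; ring
  have hx0R : (2 : ℝ) ≤ x0 := by exact_mod_cast hx0
  have hxxR : (x2 : ℝ) ≤ x2' := by exact_mod_cast hxx
  -- the two numbers
  obtain ⟨p1, hp1⟩ : ∃ p1 : ℕ, p1 = ⌊(2 * (x2 : ℝ) - 0.3 - T) / 4⌋₊ := ⟨_, rfl⟩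
  have a1 : (p1 : ℝ) ≤ (2 * (x2 : ℝ) - 0.3 - T) / 4 := by
    rw [hp1]
    apply Nat.floor_le
    rw [hTu]
    linarith
  have a2 : (2 * (x2 : ℝ) - 0.3 - T) / 4 < p1 + 1 := by
    rw [hp1]
    exact Nat.lt_floor_add_one _
  obtain ⟨p2, hp2⟩ : ∃ p2 : ℕ, p2 = ⌈(2 * (x2' : ℝ) + 0.4 - T) / 4⌉₊ := ⟨_, rfl⟩
  have b1 : (2 * (x2' : ℝ) + 0.4 - T) / 4 ≤ p2 := by
    rw [hp2]
    exact Nat.le_ceil _
  have b2 : (p2 : ℝ) < (2 * (x2' : ℝ) + 0.4 - T) / 4 + 1 := by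
    rw [hp2]
    apply Nat.ceil_lt_add_one
    rw [hTu]
    linarith
  have p1x : p1 ≤ x0 := by
    have : (p1 : ℝ) ≤ x0 := by
      refine a1.trans ?_
      rw [hTu]
      linarith
    exact_mod_cast this
  have p2x : p2 ≤ x0 := by
    have : (p2 : ℝ) < x0 + 1 := by
      refine b2.trans_le ?_
      rw [hTu]
      linarith
    have : p2 < x0 + 1 := by exact_mod_cast this
    omega
  have i1 := inner2 hE hS hn hx h2 p1x hT (by linarith) (by linarith)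
  have i2 := inner2 hE hS hn hx' (by omega) p2x hT (by linarith) (by linarith)
  have s1 := (Inn_sign2 hn hn36 hx p1x hm hT).1 g1 (by linarith) (by linarith)
  have s2 := (Inn_sign2 hn hn36 hx' p2x hm hT).2 g2 (by linarith)
  have j1 := i1.1 s1
  have j2 := i2.2 s2
  unfold Inn at j1 j2
  have hsg : Sgn (x0 • q4 (2 * m) + (x2 • q4 (2 * m + 1) + (x1 • r4 (2 * m + 1) + c • {m}))) d := by
    refine Sgn_dbl (by omega) ?_ ?_
    · have e1 : x2' • q4 (2 * m + 1) + (p2 • ({2 * m} : Multiset ℕ) + ((x0 - p2) • {2 * m + 1} +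
          (x1' • r4 (2 * m + 1) + c • {m}))) = (x0 - p2) • {2 * m + 1} + (p2 • {2 * m} +
          (x2' • q4 (2 * m + 1) + (x1' • r4 (2 * m + 1) + c • {m}))) := by abel
      rw [e1] at j2
      have j3 := j2.lower (Nat.le_succ (2 * m))
      obtain ⟨r, hr⟩ := Nat.exists_eq_add_of_le hxx
      have e2 : (x0 - p2) • ({2 * m} : Multiset ℕ) + (p2 • {2 * m} +
          (x2' • q4 (2 * m + 1) + (x1' • r4 (2 * m + 1) + c • {m}))) =
          r • q4 (2 * m + 1) + (x0 • {2 * m} +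
          (x2 • q4 (2 * m + 1) + (x1' • r4 (2 * m + 1) + c • {m}))) := by
        have e3 : x0 • ({2 * m} : Multiset ℕ) = (x0 - p2) • {2 * m} + p2 • {2 * m} := by
          rw [← add_smul, Nat.sub_add_cancel p2x]
        rw [e3, hr, add_smul]
        abel
      rw [e2] at j3
      have j4 := SurM_q_r j3
      have e4 : r • r4 (2 * m + 1) + (x0 • ({2 * m} : Multiset ℕ) +
          (x2 • q4 (2 * m + 1) + (x1' • r4 (2 * m + 1) + c • {m}))) = x0 • {2 * m} +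
          (x2 • q4 (2 * m + 1) + (x1 • r4 (2 * m + 1) + c • {m})) := by
        have e5 : x1 = r + x1' := by omega
        rw [e5, add_smul]
        abel
      rw [e4] at j4
      exact j4
    · have e1 : x2 • q4 (2 * m + 1) + (p1 • ({2 * m} : Multiset ℕ) + ((x0 - p1) • {2 * m + 1} +
          (x1 • r4 (2 * m + 1) + c • {m}))) = p1 • {2 * m} + ((x0 - p1) • {2 * m + 1} +
          (x2 • q4 (2 * m + 1) + (x1 • r4 (2 * m + 1) + c • {m}))) := by abel
      rw [e1] at j1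
      have j3 := Pool.Agent.TH2.NU.EmpM.raise (Nat.le_succ (2 * m)) j1
      have e2 : p1 • ({2 * m + 1} : Multiset ℕ) + ((x0 - p1) • {2 * m + 1} +
          (x2 • q4 (2 * m + 1) + (x1 • r4 (2 * m + 1) + c • {m}))) = x0 • {2 * m + 1} +
          (x2 • q4 (2 * m + 1) + (x1 • r4 (2 * m + 1) + c • {m})) := by
        have e3 : x0 • ({2 * m + 1} : Multiset ℕ) = (x0 - p1) • {2 * m + 1} + p1 • {2 * m + 1} := by
          rw [← add_smul, Nat.sub_add_cancel p1x]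
        rw [e3]
        abel
      rw [e2] at j3
      exact j3
  refine Sgn_of_ms ?_ hsg
  rw [hms]
  have e := sp' (Nat.zero_le 1) c m
  rw [add_zero] at e
  rw [q4_0', r4_1', q4_1, e, cl_eq]
  exact two_eq (by omega) (by omega)

end Pool.Agent.X214.NU
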