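import Pool.Agent.H15.G.R_pool_sql_team_seeded_64922ed1.X214.NU.Red2
import Pool.Agent.H15.G.R_seed8.TH759.EV.Pow

/-! Near-uniform multiplicities at `n ≥ 36` points, all degrees. -/

set_option autoImplicit false

namespace Pool.Agent.X214.NU

open Finset Pool.Agent.H932R3

/-- The numbers `n ≥ 36` of points and `q` of points of the larger multiplicity: `q ≥ 2 n / 7`, or
`q ≤ n / 11`, or `n ≥ 112`, or `4 ∣ n ≠ 68, 72, 76`, or `n` is even and `n ≤ 44` or `n ≥ 100`. -/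
def Region (n q : ℕ) : Prop := 36 ≤ n ∧ (2 * n ≤ 7 * q ∨ 11 * q ≤ n ∨ 112 ≤ n ∨
  (4 ∣ n ∧ n ≠ 68 ∧ n ≠ 72 ∧ n ≠ 76) ∨ (2 ∣ n ∧ (n ≤ 44 ∨ 100 ≤ n)))

/-- The vector `v` takes the values `m` and `m + 1`, for some `m ≥ 1`, and the number of the points
and the number of the values `m + 1` are in the region. -/
def NearRegular {n : ℕ} (v : Fin n → ℕ) : Prop :=
  ∃ m : ℕ, 1 ≤ m ∧ (∀ i, v i = m ∨ v i = m + 1) ∧
    Region n (univ.filter fun i => v i = m + 1).card

/-- **Every degree.** -/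
theorem near_final {n : ℕ} {v : Fin n → ℕ} (h : NearRegular v) (L : Type) [Field L] [CharZero L] :
    ∃ F : MvPolynomial (Fin n × Fin 2) ℚ, F ≠ 0 ∧ ∀ (P : Fin n → Fin 2 → L),
      MvPolynomial.aeval (fun ij : Fin n × Fin 2 => P ij.1 ij.2) F ≠ 0 →
      ∀ d : ℕ, ExpDim L v P d := by
  obtain ⟨m, hm, hv, h36, hR⟩ := h
  by_cases h64 : n = 64
  · subst h64
    obtain ⟨F, hF, hF'⟩ := Pool.Agent.TH759.EV.expDim_of_NU
      (Pool.Agent.TH759.EV.NU_all (n := 64) (k := 1) (Or.inl (by norm_num))) hm hv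
    exact ⟨F, hF, fun P hP d => hF' P hP d⟩
  · refine near_all2 h36 hm hv ?_
    unfold RR
    rcases hR with h | h | h | ⟨⟨k, hk⟩, h⟩ | ⟨⟨k, hk⟩, h⟩
    · exact Or.inl h
    · exact Or.inr (Or.inl h)
    · exact Or.inr (Or.inr (Or.inl h))
    · right; right; right; left
      omega
    · right; right; right; right
      omega

/-- at generic points -/
theorem near_gen {n : ℕ} {v : Fin n → ℕ} (h : NearRegular v) {L : Type} [Field L] [CharZero L]
    {P : Fin n → Fin 2 → L} (hP : AlgebraicIndependent ℚ (fun ij : Fin n × Fin 2 => P ij.1 ij.2))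
    (d : ℕ) : ExpDim L v P d := by
  obtain ⟨F, hF, hF'⟩ := near_final h L
  exact hF' P (fun h0 => hF (hP.eq_zero_of_aeval_eq_zero F h0)) d

theorem NearRegular.n36 {n : ℕ} {v : Fin n → ℕ} (h : NearRegular v) : 36 ≤ n := by
  obtain ⟨m, -, -, h36, -⟩ := h
  exact h36

end Pool.Agent.X214.NU
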