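import Pool.Agent.H15.G.R_pool_sql_team_seeded_64922ed1.X214.NU.Win
import Pool.Agent.H15.G.R_seed8.TH2.NU.Crit
import Pool.Agent.H15.G.R_seed8.TH868.NG.Fin
import Pool.Agent.H15.G.R_seed8.TH760.EN.Asm

/-! The windows for multisets of multiplicities, `n = 4 N + c` points. -/

set_option autoImplicit false

namespace Pool.Agent.X214.NU

open Finset Pool.Agent.TH176.Nag Pool.Agent.TH603.Sur Pool.Agent.TH641.UM Pool.Agent.TH2.NU
open Pool.Agent.TH760.EN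

/-- the window `E` -/
def WE (n N c d : ℕ) (H : ℝ) : Prop := ∀ (M : Multiset ℕ) (μ : ℕ), M.card = N →
  √(n : ℝ) * (2 * d + 3) + H < 4 * (M.sum : ℝ) + 2 * N + c + 2 * c * μ → EmpM (M + c • {μ}) (TZ d)

/-- the window `S` -/
def WS (n N c d : ℕ) (H : ℝ) : Prop := ∀ (M : Multiset ℕ) (μ b : ℕ), M.card = N →
  (∀ a ∈ M, b ≤ a ∧ a ≤ b + 1) → b ≤ 2 * μ + 1 → 2 * μ ≤ b + 1 →
  4 * (M.sum : ℝ) + 2 * N + c + 2 * c * μ + H < √(n : ℝ) * (2 * d + 3) → SurM (M + c • {μ}) (TZ d)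

theorem exists_v (M : Multiset ℕ) {N : ℕ} (h : M.card = N) : ∃ v : Fin N → ℕ, ms v = M := by
  rw [← Multiset.length_toList] at h
  subst h
  exact ⟨_, ms_toList M⟩

theorem mem_ms {ι : Type} [Fintype ι] (v : ι → ℕ) (i : ι) : v i ∈ ms v := by
  unfold ms
  rw [Multiset.mem_sum]
  exact ⟨i, mem_univ i, Multiset.mem_singleton_self _⟩

theorem WE.of {n N c d : ℕ} {H : ℝ} (h : ∀ (v : Fin N → ℕ) (μ : ℕ),
    √(n : ℝ) * (2 * d + 3) + H < 4 * ((∑ i, v i : ℕ) : ℝ) + 2 * N + c + 2 * c * μ →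
    Emp (Sum.elim v (fun _ : Fin c => μ)) (TZ d)) : WE n N c d H := by
  intro M μ hM hlt
  obtain ⟨v, rfl⟩ := exists_v M hM
  rw [ms_sum_val] at hlt
  refine (EmpM_iff ?_ _).2 (h v μ hlt)
  rw [ms_sum, ms_fin]

theorem WS.of {n N c d : ℕ} {H : ℝ} (h : ∀ (v : Fin N → ℕ) (μ b : ℕ),
    (∀ i, b ≤ v i ∧ v i ≤ b + 1) → b ≤ 2 * μ + 1 → 2 * μ ≤ b + 1 →
    4 * ((∑ i, v i : ℕ) : ℝ) + 2 * N + c + 2 * c * μ + H < √(n : ℝ) * (2 * d + 3) →
    Sur (Sum.elim v (fun _ : Fin c => μ)) (TZ d)) : WS n N c d H := by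
  intro M μ b hM hb h1 h2 hlt
  obtain ⟨v, rfl⟩ := exists_v M hM
  rw [ms_sum_val] at hlt
  refine (SurM_iff ?_ _).2 (h v μ b (fun i => hb _ (mem_ms v i)) h1 h2 hlt)
  rw [ms_sum, ms_fin]

theorem WE.mono {n N c d : ℕ} {H H' : ℝ} (h : WE n N c d H) (hH : H ≤ H') : WE n N c d H' :=
  fun M μ hM hlt => h M μ hM (by linarith)

theorem WS.mono {n N c d : ℕ} {H H' : ℝ} (h : WS n N c d H) (hH : H ≤ H') : WS n N c d H' :=
  fun M μ b hM hb h1 h2 hlt => h M μ b hM hb h1 h2 (by linarith)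

theorem WE_end {N c n d : ℕ} (hE : HE c) (hn : n = 4 * N + c) (h36 : 36 ≤ n) :
    WE n N c d (((n : ℝ) + c) / 2 - 3 * √(n : ℝ)) := by
  have hnac : (n : ℝ) = 4 * N + c := by rw [hn]; push_cast; ring
  refine WE.of fun v μ h => ?_
  rw [hnac] at h
  rw [← hnac] at h
  rcases Nat.eq_zero_or_pos c with hc | hc
  · subst hc
    have hN : 9 ≤ N := by omega
    refine Pool.Agent.TH868.NG.Emp_plane (ι := Fin N ⊕ Fin 0) (by simp; omega) ?_
    have e : (Fintype.card (Fin N ⊕ Fin 0) : ℝ) = N := by simp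
    rw [e]
    have e2 : √(n : ℝ) = 2 * √(N : ℝ) := by
      rw [← Pool.Agent.TH885.NU.sqrt_four, hnac]
      push_cast
      rw [add_zero]
    have e3 : ∑ i, ((Sum.elim v (fun _ : Fin 0 => μ) i : ℕ) : ℝ) = ((∑ i, v i : ℕ) : ℝ) := by
      rw [Fintype.sum_sum_type]
      simp
    rw [e3]
    rw [e2, hnac] at h
    push_cast at h ⊢
    linarith
  · refine E_end1 hc hE v hn h36 ?_
    rw [hnac] at h
    rw [← hnac] at h
    have : ((n : ℝ) + c) / 2 = 2 * N + c := by rw [hnac]; ring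
    rw [this] at h
    linarith

theorem WS_end {N c n d : ℕ} (hS : HS c) (hn : n = 4 * N + c) (h36 : 36 ≤ n) :
    WS n N c d (((n : ℝ) + c) / 2 - 3 * √(n : ℝ)) := by
  have hnac : (n : ℝ) = 4 * N + c := by rw [hn]; push_cast; ring
  refine WS.of fun v μ b hv h1 h2 h => S_end hS v hv h1 h2 hn h36 ?_
  have : ((n : ℝ) + c) / 2 = 2 * N + c := by rw [hnac]; ring
  rw [this] at h
  linarith

theorem WE_win {N c n d k σ : ℕ} (hE : HE c) (hn : n = 4 * N + c) (h36 : 36 ≤ n) (hN : 0 < N) {f : ℝ}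
    (hf : 0 ≤ f) (hσ : (σ : ℝ) + 1 + f = N + (c : ℝ) / 4)
    (hk : (n : ℝ) / 8 - 11 / 12 * √(n : ℝ) ≤ k) (hkd : √(n : ℝ) * k ≤ 2 * d) :
    WE n N c d (2 * √(n : ℝ) / 3 + 9 / 2 + 4 * f + c / 2) := by
  have hnac : (n : ℝ) = 4 * N + c := by rw [hn]; push_cast; ring
  refine WE.of fun v μ h => E_win hE v hn h36 hN hf hσ hk hkd ?_
  have : (n : ℝ) / 2 = 2 * N + c / 2 := by rw [hnac]; ring
  rw [this]
  linarith

theorem WS_win {N c n d : ℕ} (hS : HS c) (hn : n = 4 * N + c) (h37 : 37 ≤ n) :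
    WS n N c d (2 * √(n : ℝ) / 3 + 1 / 2 + c / 2) := by
  have hnac : (n : ℝ) = 4 * N + c := by rw [hn]; push_cast; ring
  refine WS.of fun v μ b hv h1 h2 h => S_win hS v hv h1 h2 hn h37 ?_
  have : (n : ℝ) / 2 = 2 * N + c / 2 := by rw [hnac]; ring
  rw [this]
  linarith

/-- the numbers `N`, `c` -/
theorem exists_Nc {n : ℕ} (hn : 37 ≤ n) : ∃ N c : ℕ, n = 4 * N + c ∧ 8 ≤ N ∧ HE c ∧ HS c ∧
    ((c = 0 ∨ c = 2 ∨ c = 3) ∨ c = 5) := by
  have h3 : HE 3 := Pool.Agent.TH641.EN.HE_three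
  rcases (by omega : n % 4 = 0 ∨ n % 4 = 1 ∨ n % 4 = 2 ∨ n % 4 = 3) with h | h | h | h
  · exact ⟨n / 4, 0, by omega, by omega, he0, hs0, by omega⟩
  · exact ⟨(n - 5) / 4, 5, by omega, by omega, Pool.Agent.TH938.Q5.he5 he2 h3,
      Pool.Agent.TH938.Q5.hs5 he2 h3, by omega⟩
  · exact ⟨n / 4, 2, by omega, by omega, he2, hs2, by omega⟩
  · exact ⟨n / 4, 3, by omega, by omega, h3, hs3_of h3, by omega⟩

/-- **the windows** -/
theorem windows {n : ℕ} (hn : 37 ≤ n) : ∃ (N c : ℕ) (H : ℝ), n = 4 * N + c ∧ 8 ≤ N ∧ c ≤ 5 ∧ c ≠ 1 ∧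
    c ≠ 4 ∧ 0 ≤ H ∧ H ≤ N + (c : ℝ) / 2 - 5.45 ∧ (138 ≤ n → 3 / 2 * H + 8.475 ≤ N) ∧
    ∀ d k : ℕ, (n : ℝ) / 8 - 11 / 12 * √(n : ℝ) ≤ k → √(n : ℝ) * k ≤ 2 * d →
      WE n N c d H ∧ WS n N c d H := by
  obtain ⟨N, c, hnc, hN, hE, hS, hc⟩ := exists_Nc hn
  have hnR : (37 : ℝ) ≤ n := by exact_mod_cast hn
  have hnac : (n : ℝ) = 4 * N + c := by rw [hnc]; push_cast; ring
  obtain ⟨s, hs⟩ : ∃ s : ℝ, s = √(n : ℝ) := ⟨_, rfl⟩
  have hss : s * s = n := by rw [hs]; exact Real.mul_self_sqrt (by linarith)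
  have hs6 : 6.05 ≤ s := by rw [hs]; exact Real.le_sqrt_of_sq_le (by norm_num; linarith)
  have hNR : (N : ℝ) = (s * s - c) / 4 := by rw [hss, hnac]; ring
  rcases le_or_gt s 9 with h9 | h9
  · refine ⟨N, c, ((n : ℝ) + c) / 2 - 3 * s, hnc, hN, by omega, by omega, by omega, ?_, ?_, ?_, ?_⟩
    · have : (0 : ℝ) ≤ c := Nat.cast_nonneg c
      rw [← hss]
      nlinarith
    · rw [hNR, ← hss]
      rcases hc with (h | h | h) | h <;> subst h <;> push_cast <;> nlinarith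
    · intro h144
      exfalso
      have : (138 : ℝ) ≤ n := by exact_mod_cast h144
      nlinarith
    · intro d k _ _
      rw [hs]
      exact ⟨WE_end hE hnc (by omega), WS_end hS hnc (by omega)⟩
  · obtain ⟨σ, f, hf0, hf, hκ⟩ : ∃ (σ : ℕ) (f : ℝ), 0 ≤ f ∧ (σ : ℝ) + 1 + f = N + (c : ℝ) / 4 ∧
        ((c = 0 ∧ f = 0) ∨ (c = 2 ∧ f = 1 / 2) ∨ (c = 3 ∧ f = 3 / 4) ∨ (c = 5 ∧ f = 1 / 4)) := by
      rcases hc with hc | hc
      · refine ⟨N - 1, (c : ℝ) / 4, by positivity, ?_, ?_⟩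
        · rw [Nat.cast_sub (by omega)]; push_cast; ring
        · rcases hc with h | h | h <;> subst h <;> norm_num
      · refine ⟨N, 1 / 4, by norm_num, ?_, ?_⟩
        · rw [hc]; push_cast; ring
        · right; right; right; exact ⟨hc, rfl⟩
    refine ⟨N, c, 2 * s / 3 + 9 / 2 + 4 * f + c / 2, hnc, hN, by omega, by omega, by omega, ?_, ?_, ?_,
      ?_⟩
    · have : (0 : ℝ) ≤ c := Nat.cast_nonneg c
      positivity
    · rw [hNR]
      rcases hκ with ⟨h, h'⟩ | ⟨h, h'⟩ | ⟨h, h'⟩ | ⟨h, h'⟩ <;> subst h <;> rw [h'] <;> push_cast <;>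
        nlinarith
    · intro h144
      have h138 : (138 : ℝ) ≤ n := by exact_mod_cast h144
      have hs' : 11.745 ≤ s := by
        rw [hs]; exact Real.le_sqrt_of_sq_le (by norm_num; linarith)
      rw [hNR]
      rcases hκ with ⟨h, h'⟩ | ⟨h, h'⟩ | ⟨h, h'⟩ | ⟨h, h'⟩ <;> subst h <;> rw [h'] <;> push_cast <;>
        nlinarith
    · intro d k hk hkd
      rw [hs]
      refine ⟨WE_win hE hnc (by omega) (by omega) hf0 hf hk hkd, (WS_win hS hnc hn).mono ?_⟩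
      have := hf0
      linarith

end Pool.Agent.X214.NU
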