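import Pool.Agent.H15.G.R_pool_sql_team_seeded_64922ed1.X214.NU.Crit
import Pool.Agent.H15.G.R_seed8.TH941.NU.Out

/-! From the three critical degrees to all degrees. -/

set_option autoImplicit false

namespace Pool.Agent.X214.NU

open Finset Pool.Agent.TH176.Nag Pool.Agent.TH603.Sur Pool.Agent.TH641.UM Pool.Agent.TH2.NU
open Pool.Agent.H932R3

theorem sum_ind {n : ℕ} (i : Fin n) (w : Fin n → ℕ) :
    ∑ j, (w j + if j = i then 1 else 0) = ∑ j, w j + 1 := by
  rw [sum_add_distrib, Finset.sum_ite_eq' univ i, if_pos (mem_univ i)]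

theorem raise1 {n m : ℕ} (hn : 0 < n) {w : Fin n → ℕ} (hw : ∀ i, w i = m ∨ w i = m + 1) :
    ∃ (m' : ℕ) (w' : Fin n → ℕ), m ≤ m' ∧ (∀ i, w' i = m' ∨ w' i = m' + 1) ∧ (∀ i, w i ≤ w' i) ∧
      ∑ i, w' i = ∑ i, w i + 1 := by
  by_cases h : ∃ i, w i = m
  · obtain ⟨i, hi⟩ := h
    refine ⟨m, fun j => w j + if j = i then 1 else 0, le_rfl, fun j => ?_, fun j => by simp,
      sum_ind i w⟩
    by_cases hj : j = i
    · have hi' : w j = m := by rw [hj]; exact hi
      simp only [if_pos hj]
      omega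
    · simp only [if_neg hj, add_zero]
      exact hw j
  · push Not at h
    have h' : ∀ i, w i = m + 1 := fun i => (hw i).resolve_left (h i)
    refine ⟨m + 1, fun j => w j + if j = ⟨0, hn⟩ then 1 else 0, Nat.le_succ m, fun j => ?_,
      fun j => by simp, sum_ind _ w⟩
    have := h' j
    by_cases hj : j = ⟨0, hn⟩
    · simp only [if_pos hj]
      omega
    · simp only [if_neg hj, add_zero]
      omega

theorem raisek {n m : ℕ} (hn : 0 < n) {w : Fin n → ℕ} (hw : ∀ i, w i = m ∨ w i = m + 1) (k : ℕ) :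
    ∃ (m' : ℕ) (w' : Fin n → ℕ), m ≤ m' ∧ (∀ i, w' i = m' ∨ w' i = m' + 1) ∧ (∀ i, w i ≤ w' i) ∧
      ∑ i, w' i = ∑ i, w i + k := by
  induction k with
  | zero => exact ⟨m, w, le_rfl, hw, fun i => le_rfl, rfl⟩
  | succ k ih =>
    obtain ⟨m', w', h1, h2, h3, h4⟩ := ih
    obtain ⟨m'', w'', k1, k2, k3, k4⟩ := raise1 hn h2
    exact ⟨m'', w'', h1.trans k1, k2, fun i => (h3 i).trans (k3 i), by omega⟩

theorem lower1 {n m : ℕ} (hn : 0 < n) (hm : 1 ≤ m) {w : Fin n → ℕ} (hw : ∀ i, w i = m ∨ w i = m + 1) :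
    ∃ (m' : ℕ) (w' : Fin n → ℕ), m' ≤ m ∧ m ≤ m' + 1 ∧ (∀ i, w' i = m' ∨ w' i = m' + 1) ∧
      (∀ i, w' i ≤ w i) ∧ ∑ i, w' i + 1 = ∑ i, w i := by
  by_cases h : ∃ i, w i = m + 1
  · obtain ⟨i, hi⟩ := h
    refine ⟨m, fun j => if j = i then m else w j, le_rfl, by omega, fun j => ?_, fun j => ?_, ?_⟩
    · by_cases hj : j = i
      · simp only [if_pos hj]
        exact Or.inl trivial
      · simp only [if_neg hj]
        exact hw j
    · by_cases hj : j = i
      · have hi' : w j = m + 1 := by rw [hj]; exact hi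
        simp only [if_pos hj]
        omega
      · simp only [if_neg hj]
        exact le_rfl
    · rw [← sum_ind i]
      refine sum_congr rfl fun j _ => ?_
      by_cases hj : j = i
      · have hi' : w j = m + 1 := by rw [hj]; exact hi
        simp only [if_pos hj]
        exact hi'.symm
      · simp only [if_neg hj, add_zero]
  · push Not at h
    have h' : ∀ i, w i = m := fun i => (hw i).resolve_right (h i)
    refine ⟨m - 1, fun j => if j = ⟨0, hn⟩ then m - 1 else w j, by omega, by omega, fun j => ?_,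
      fun j => ?_, ?_⟩
    · have := h' j
      by_cases hj : j = ⟨0, hn⟩
      · simp only [if_pos hj]
        exact Or.inl trivial
      · simp only [if_neg hj]
        omega
    · have := h' j
      by_cases hj : j = ⟨0, hn⟩
      · simp only [if_pos hj]
        omega
      · simp only [if_neg hj]
        exact le_rfl
    · rw [← sum_ind ⟨0, hn⟩]
      refine sum_congr rfl fun j _ => ?_
      have := h' j
      by_cases hj : j = ⟨0, hn⟩
      · simp only [if_pos hj]
        omega
      · simp only [if_neg hj, add_zero]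

theorem lowerk {n m : ℕ} (hn : 0 < n) {w : Fin n → ℕ} (hw : ∀ i, w i = m ∨ w i = m + 1) (k : ℕ)
    (hk : k ≤ m) : ∃ (m' : ℕ) (w' : Fin n → ℕ), m' ≤ m ∧ m ≤ m' + k ∧
      (∀ i, w' i = m' ∨ w' i = m' + 1) ∧ (∀ i, w' i ≤ w i) ∧ ∑ i, w' i + k = ∑ i, w i := by
  induction k with
  | zero => exact ⟨m, w, le_rfl, le_rfl, hw, fun i => le_rfl, rfl⟩
  | succ k ih =>
    obtain ⟨m', w', h0, h1, h2, h3, h4⟩ := ih (by omega)
    obtain ⟨m'', w'', k0, k1, k2, k3, k4⟩ := lower1 hn (by omega) h2
    exact ⟨m'', w'', k0.trans h0, by omega, k2, fun i => (k3 i).trans (h3 i), by omega⟩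

theorem ex_q {n m : ℕ} {w : Fin n → ℕ} (hw : ∀ i, w i = m ∨ w i = m + 1) :
    ∃ q : ℕ, ∑ i, w i = n * m + q := by
  have h1 : ∑ _i : Fin n, m ≤ ∑ i, w i := sum_le_sum fun i _ => by
    rcases hw i with h | h <;> omega
  simp only [sum_const, card_univ, Fintype.card_fin, smul_eq_mul] at h1
  exact ⟨∑ i, w i - n * m, by omega⟩

/-- the window -/
theorem good_all {n m q d : ℕ} (hn : 37 ≤ n) {w : Fin n → ℕ} (hw : ∀ i, w i = m ∨ w i = m + 1)
    (hq : ∑ i, w i = n * m + q) (hm : (n : ℝ) - 6 * √(n : ℝ) + 10 ≤ m) (hreg : n ≤ 2 * q ∨ 138 ≤ n)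
    (hu : |√(n : ℝ) * (2 * d + 3) - (n + 2 * (n * m + q))| ≤ 2 * √(n : ℝ) / 3 + 9 / 4) : Good w d := by
  obtain ⟨hqn, -⟩ := ms_near hw hq
  have hnR : (37 : ℝ) ≤ n := by exact_mod_cast hn
  obtain ⟨s, hs⟩ : ∃ s : ℝ, s = √(n : ℝ) := ⟨_, rfl⟩
  have hss : s * s = n := by rw [hs]; exact Real.mul_self_sqrt (by linarith)
  have hs6 : 6.05 ≤ s := by rw [hs]; exact Real.le_sqrt_of_sq_le (by norm_num; linarith)
  have hs0 : 0 < s := by linarith
  obtain ⟨hu1, hu2⟩ := abs_le.1 hu
  rw [← hs] at hm hu1 hu2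
  have hm10 : 10 ≤ m := by
    have : (10 : ℝ) ≤ m := by
      rw [← hss] at hm
      nlinarith
    exact_mod_cast this
  -- small numbers `k`
  have hk16 : ∀ k : ℕ, (k : ℝ) < s / 3 + 0.65 → 8 * k + 16 ≤ n ∧ k + 1 ≤ m := by
    intro k hk
    constructor
    · rcases le_or_gt s 6.9 with h | h
      · have : (k : ℝ) < 3 := by linarith
        have : k < 3 := by exact_mod_cast this
        omega
      · have : ((8 * k + 16 : ℕ) : ℝ) ≤ (n : ℝ) := by
          push_cast
          rw [← hss]
          nlinarith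
        exact_mod_cast this
    · have : ((k + 1 : ℕ) : ℝ) ≤ (m : ℝ) := by
        push_cast
        refine le_trans ?_ hm
        rw [← hss]
        nlinarith
      exact_mod_cast this
  obtain ⟨u, hu0⟩ : ∃ u : ℝ, u = s * (2 * d + 3) - (n + 2 * (n * m + q)) := ⟨_, rfl⟩
  rw [← hu0] at hu1 hu2
  rcases le_or_gt |u| 2.95 with h295 | h295
  · refine crit hn hw hq (by rw [← hs]; linarith) ?_ (by rw [← hs, ← hu0]; exact h295)
    unfold Reg3
    omega
  rcases lt_abs.1 h295 with hpos | hneg
  · -- raising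
    obtain ⟨k, hk1, hk2⟩ : ∃ k : ℕ, u - 2 * k ≤ 2.95 ∧ 0.95 < u - 2 * (k : ℝ) := by
      refine ⟨⌈(u - 2.95) / 2⌉₊, ?_, ?_⟩
      · have := Nat.le_ceil ((u - 2.95) / 2)
        linarith
      · have := Nat.ceil_lt_add_one (show 0 ≤ (u - 2.95) / 2 by linarith)
        linarith
    obtain ⟨hk3, -⟩ := hk16 k (by linarith)
    obtain ⟨m', w', h1, h2, h3, h4⟩ := raisek (by omega) hw k
    obtain ⟨q', hq'⟩ := ex_q h2
    obtain ⟨hqn', -⟩ := ms_near h2 hq'
    have h5 : n * m' + q' = n * m + q + k := by omega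
    have h5R : (n : ℝ) * m' + q' = n * m + q + k := by exact_mod_cast h5
    have hm' : (m : ℝ) ≤ m' := by exact_mod_cast h1
    have hu' : s * (2 * d + 3) - (n + 2 * (n * m' + q')) = u - 2 * k := by
      rw [h5R, hu0]; ring
    have g := crit (d := d) hn h2 hq' (by rw [← hs]; linarith) (by
      unfold Reg3
      rcases hreg with hreg | hreg
      · rcases Nat.eq_or_lt_of_le h1 with h6 | h6
        · subst h6
          left
          omega
        · right; left
          obtain ⟨t, rfl⟩ := Nat.exists_eq_add_of_le (Nat.succ_le_of_lt h6)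
          have : n * (m.succ + t) = n * m + n + n * t := by rw [Nat.succ_eq_add_one]; ring
          rw [this] at h5
          omega
      · right; right; exact hreg) (by
      rw [← hs, hu', abs_le]
      constructor
      · linarith
      · exact hk1)
    have s1 := sign_pos (d := d) (by omega) h2 hq' (by omega) (by rw [← hs, hu']; linarith)
    have s2 := sign_pos (d := d) (by omega) hw hq (by omega) (by rw [← hs, ← hu0]; linarith)
    refine ⟨fun h => absurd h (by omega), fun _ => ?_⟩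
    exact Pool.Agent.TH2.NU.Sur_anti h3 (g.2 s1.le)
  · -- lowering
    obtain ⟨k, hk1, hk2⟩ : ∃ k : ℕ, -2.95 ≤ u + 2 * k ∧ u + 2 * (k : ℝ) < -0.95 := by
      refine ⟨⌈(-u - 2.95) / 2⌉₊, ?_, ?_⟩
      · have := Nat.le_ceil ((-u - 2.95) / 2)
        linarith
      · have := Nat.ceil_lt_add_one (show 0 ≤ (-u - 2.95) / 2 by linarith)
        linarith
    obtain ⟨hk3, hk4⟩ := hk16 k (by linarith)
    obtain ⟨m', w', h0, h1, h2, h3, h4⟩ := lowerk (by omega) hw k (by omega)
    obtain ⟨q', hq'⟩ := ex_q h2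
    obtain ⟨hqn', -⟩ := ms_near h2 hq'
    have h5 : n * m' + q' + k = n * m + q := by omega
    have h5R : (n : ℝ) * m' + q' + k = n * m + q := by exact_mod_cast h5
    have hmm : m ≤ m' + 1 := by
      by_contra hcon
      obtain ⟨t, rfl⟩ := Nat.exists_eq_add_of_le (show m' + 2 ≤ m by omega)
      have : n * (m' + 2 + t) = n * m' + 2 * n + n * t := by ring
      rw [this] at h5
      omega
    have hmmR : (m : ℝ) ≤ m' + 1 := by exact_mod_cast hmm
    have hu' : s * (2 * d + 3) - (n + 2 * (n * m' + q')) = u + 2 * k := by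
      have : (n : ℝ) * m' + q' = n * m + q - k := by linarith
      rw [this, hu0]; ring
    have hsn : s ≤ n := by rw [← hss]; nlinarith
    have g := crit (d := d) hn h2 hq' (by rw [← hs]; linarith) (by
      unfold Reg3
      rcases hreg with hreg | hreg
      · left
        rcases Nat.eq_or_lt_of_le h0 with h6 | h6
        · subst h6
          omega
        · obtain ⟨t, rfl⟩ := Nat.exists_eq_add_of_le (Nat.succ_le_of_lt h6)
          have : n * (m'.succ + t) = n * m' + n + n * t := by rw [Nat.succ_eq_add_one]; ring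
          rw [this] at h5
          omega
      · right; right; exact hreg) (by
      rw [← hs, hu', abs_le]
      constructor
      · exact hk1
      · linarith)
    have s1 := sign_neg (d := d) hn h2 hq' (by rw [← hs]; linarith) (by rw [← hs, hu']; linarith)
      (by rw [← hs, hu']; linarith)
    have s2 := sign_neg (d := d) hn hw hq (by rw [← hs]; linarith) (by rw [← hs, ← hu0]; linarith)
      (by rw [← hs, ← hu0]; linarith)
    refine ⟨fun _ => ?_, fun h => absurd h (by omega)⟩
    exact Emp_emb id Function.injective_id h3 (g.1 s1.le)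

/-- **Every degree**, near-uniform multiplicities: `n ≥ 138`, or `n ≥ 37` and at least half of the
points have the larger multiplicity. -/
theorem near_all {n m : ℕ} (hn : 37 ≤ n) (hm1 : 1 ≤ m) {w : Fin n → ℕ}
    (hw : ∀ i, w i = m ∨ w i = m + 1)
    (hreg : n ≤ 2 * (univ.filter fun i => w i = m + 1).card ∨ 138 ≤ n)
    {L : Type} [Field L] [CharZero L] :
    ∃ F : MvPolynomial (Fin n × Fin 2) ℚ, F ≠ 0 ∧ ∀ (P : Fin n → Fin 2 → L),
      MvPolynomial.aeval (fun ij : Fin n × Fin 2 => P ij.1 ij.2) F ≠ 0 →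
      ∀ d : ℕ, ExpDim L w P d := by
  have hq : ∑ i, w i = n * m + (univ.filter fun i => w i = m + 1).card := by
    have h2 : ∀ i, w i = m + if w i = m + 1 then 1 else 0 := by
      intro i
      rcases hw i with h | h
      · rw [if_neg (by omega), h, add_zero]
      · rw [if_pos h, h]
    rw [sum_congr rfl fun i _ => h2 i, sum_add_distrib, sum_const, card_univ, Fintype.card_fin,
      smul_eq_mul, card_filter]
  have hqR : (∑ i, (w i : ℝ)) = n * m + ((univ.filter fun i => w i = m + 1).card : ℕ) := by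
    have := congrArg (Nat.cast : ℕ → ℝ) hq
    push_cast at this ⊢
    exact this
  refine Pool.Agent.TH941.NU.near_of_window (by omega) hm1 hw ?_
  intro hm d hu
  rw [hqR] at hu
  exact good_all hn hw hq hm hreg hu

end Pool.Agent.X214.NU
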