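import Pool.Agent.H15.G.R_pool_sql_team_seeded_64922ed1.X214.NU.FamW

/-! The signs. -/

set_option autoImplicit false

namespace Pool.Agent.X214.NU

open Finset Pool.Agent.TH176.Nag Pool.Agent.TH603.Sur Pool.Agent.TH641.UM Pool.Agent.TH2.NU

theorem tc (a : ℕ) : 2 * (a + 1).choose 2 = a * (a + 1) := by
  rw [Nat.choose_two_right]
  have h : 2 ∣ (a + 1) * (a + 1 - 1) := (Nat.even_mul_pred_self (a + 1)).two_dvd
  rw [Nat.mul_div_cancel' h, Nat.add_sub_cancel, mul_comm]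

theorem tcR (a : ℕ) : 2 * (((a + 1).choose 2 : ℕ) : ℝ) = a * (a + 1) := by
  exact_mod_cast tc a

theorem cond_near {n m q : ℕ} {w : Fin n → ℕ} (hw : ∀ i, w i = m ∨ w i = m + 1)
    (hq : ∑ i, w i = n * m + q) : 2 * ((cond w : ℕ) : ℝ) = (m + 1) * (n * m + 2 * q) := by
  obtain ⟨hqn, hms⟩ := ms_near hw hq
  rw [cond_condM, hms, condM_add, condM_smul, condM_smul, condM_single, condM_single]
  obtain ⟨r, rfl⟩ := Nat.exists_eq_add_of_le hqn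
  rw [Nat.add_sub_cancel_left]
  have e1 := tcR m
  have e2 := tcR (m + 1)
  push_cast at e1 e2 ⊢
  have : 2 * ((r : ℝ) * ((m + 1).choose 2) + q * ((m + 1 + 1).choose 2)) =
      r * (2 * ((m + 1).choose 2)) + q * (2 * ((m + 1 + 1).choose 2)) := by ring
  rw [this, e1, e2]
  ring

theorem card_sq (n d : ℕ) : 8 * (n : ℝ) * (((d + 2).choose 2 : ℕ) : ℝ) =
    (√(n : ℝ) * (2 * d + 3)) ^ 2 - n := by
  have e := tcR (d + 1)
  have hs : √(n : ℝ) ^ 2 = n := Real.sq_sqrt (Nat.cast_nonneg n)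
  rw [mul_pow, hs]
  push_cast at e
  have : 8 * (n : ℝ) * (((d + 2).choose 2 : ℕ) : ℝ) = 4 * n * (2 * (((d + 1 + 1).choose 2 : ℕ) : ℝ)) := by
    ring
  rw [this, e]
  ring

theorem sign_pos {n m q d : ℕ} (hn : 1 ≤ n) {w : Fin n → ℕ} (hw : ∀ i, w i = m ∨ w i = m + 1)
    (hq : ∑ i, w i = n * m + q) (hm : 3 ≤ m)
    (hu : 0.1 ≤ √(n : ℝ) * (2 * d + 3) - (n + 2 * (n * m + q))) : cond w < (d + 2).choose 2 := by
  obtain ⟨hqn, -⟩ := ms_near hw hq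
  have hnR : (1 : ℝ) ≤ n := by exact_mod_cast hn
  have hmR : (3 : ℝ) ≤ m := by exact_mod_cast hm
  have hqR : (q : ℝ) ≤ n := by exact_mod_cast hqn
  have hq0 : (0 : ℝ) ≤ q := Nat.cast_nonneg q
  have e1 := cond_near hw hq
  have e2 := card_sq n d
  obtain ⟨u, hu'⟩ : ∃ u : ℝ, u = √(n : ℝ) * (2 * d + 3) - (n + 2 * (n * m + q)) := ⟨_, rfl⟩
  have e3 : √(n : ℝ) * (2 * d + 3) = n + 2 * (n * m + q) + u := by rw [hu']; ring
  rw [e3] at e2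
  rw [← hu'] at hu
  have hA : 7 * (n : ℝ) ≤ n + 2 * (n * m + q) := by nlinarith
  have h : 8 * (n : ℝ) * ((cond w : ℕ) : ℝ) < 8 * n * (((d + 2).choose 2 : ℕ) : ℝ) := by
    rw [e2]
    have : 8 * (n : ℝ) * ((cond w : ℕ) : ℝ) = 4 * n * (2 * ((cond w : ℕ) : ℝ)) := by ring
    rw [this, e1]
    nlinarith [mul_le_mul hA hu (by norm_num) (by linarith : (0:ℝ) ≤ n + 2 * (n * m + q)), sq_nonneg u,
      sq_nonneg ((n : ℝ) - 2 * q)]
  have h2 := lt_of_mul_lt_mul_left h (by positivity)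
  exact_mod_cast h2

theorem sign_neg {n m q d : ℕ} (hn : 37 ≤ n) {w : Fin n → ℕ} (hw : ∀ i, w i = m ∨ w i = m + 1)
    (hq : ∑ i, w i = n * m + q) (hm : (n : ℝ) - 6 * √(n : ℝ) + 9 ≤ m)
    (hu : √(n : ℝ) * (2 * d + 3) - (n + 2 * (n * m + q)) ≤ -0.95)
    (hu' : -(n : ℝ) ≤ √(n : ℝ) * (2 * d + 3) - (n + 2 * (n * m + q))) :
    (d + 2).choose 2 < cond w := by
  obtain ⟨hqn, -⟩ := ms_near hw hq
  have hnR : (37 : ℝ) ≤ n := by exact_mod_cast hn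
  have hqR : (q : ℝ) ≤ n := by exact_mod_cast hqn
  have hq0 : (0 : ℝ) ≤ q := Nat.cast_nonneg q
  have e1 := cond_near hw hq
  have e2 := card_sq n d
  -- the bound for `m`
  have h38 : (n : ℝ) ≤ 3.8 * m + 1.95 := by
    obtain ⟨s, hs⟩ : ∃ s : ℝ, s = √(n : ℝ) := ⟨_, rfl⟩
    have hss : s * s = n := by rw [hs]; exact Real.mul_self_sqrt (by linarith)
    have hs6 : 6.05 ≤ s := by rw [hs]; exact Real.le_sqrt_of_sq_le (by norm_num; linarith)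
    rw [← hs, ← hss] at hm
    rw [← hss]
    nlinarith
  obtain ⟨u, hu2⟩ : ∃ u : ℝ, u = √(n : ℝ) * (2 * d + 3) - (n + 2 * (n * m + q)) := ⟨_, rfl⟩
  have e3 : √(n : ℝ) * (2 * d + 3) = n + 2 * (n * m + q) + u := by rw [hu2]; ring
  rw [e3] at e2
  rw [← hu2] at hu hu'
  obtain ⟨A, hA⟩ : ∃ A : ℝ, A = n + 2 * (n * m + q) := ⟨_, rfl⟩
  have hA1 : n * (2 * m + 1) ≤ A := by rw [hA]; nlinarith
  have h : 8 * n * (((d + 2).choose 2 : ℕ) : ℝ) < 8 * (n : ℝ) * ((cond w : ℕ) : ℝ) := by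
    rw [e2]
    have : 8 * (n : ℝ) * ((cond w : ℕ) : ℝ) = 4 * n * (2 * ((cond w : ℕ) : ℝ)) := by ring
    rw [this, e1]
    have e4 : 4 * (n : ℝ) * ((m + 1) * (n * m + 2 * q)) = A ^ 2 - (n - 2 * q) ^ 2 := by rw [hA]; ring
    rw [e4, ← hA]
    have h5 : u * (2 * A + u) ≤ -0.95 * (2 * A + u) :=
      mul_le_mul_of_nonneg_right hu (by nlinarith)
    have h6 : (n - 2 * (q : ℝ)) ^ 2 ≤ n ^ 2 := by
      apply sq_le_sq'
      · linarith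
      · linarith
    have h7 : n * n ≤ n * (3.8 * (m : ℝ) + 1.95) := mul_le_mul_of_nonneg_left h38 (by linarith)
    nlinarith
  have h2 := lt_of_mul_lt_mul_left h (by positivity)
  exact_mod_cast h2

/-- the multiset of the inner step -/
def Inn (m c x0 x1 x2 p : ℕ) : Multiset ℕ :=
  x2 • q4 (2 * m + 1) + (p • {2 * m} + ((x0 - p) • {2 * m + 1} + (x1 • r4 (2 * m + 1) + c • {m})))

theorem cond_Inn {m c x0 x1 x2 p : ℕ} (hp : p ≤ x0) :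
    2 * ((condM (Inn m c x0 x1 x2 p) : ℕ) : ℝ) = (x0 + x1 + x2) * ((2 * m + 1) * (2 * m + 2)) -
      2 * p * (2 * m + 1) + 2 * x2 * (m + 1) + c * (m * (m + 1)) := by
  unfold Inn
  rw [condM_add, condM_add, condM_add, condM_add, condM_smul, condM_smul, condM_smul, condM_smul,
    condM_smul, condM_q4, condM_r4 (by omega), condM_single, condM_single, condM_single]
  obtain ⟨t, rfl⟩ := Nat.exists_eq_add_of_le hp
  rw [Nat.add_sub_cancel_left]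
  have e0 : (2 * m + 1 + 1) / 2 = m + 1 := by omega
  rw [e0]
  have e1 := tcR (2 * m)
  have e2 := tcR (2 * m + 1)
  have e3 := tcR m
  push_cast at e1 e2 e3 ⊢
  have : 2 * ((x2 : ℝ) * ((2 * m + 1 + 1).choose 2 + (m + 1)) + (p * (2 * m + 1).choose 2 +
      (t * (2 * m + 1 + 1).choose 2 + (x1 * (2 * m + 1 + 1).choose 2 + c * (m + 1).choose 2)))) =
      x2 * (2 * (2 * m + 1 + 1).choose 2) + 2 * x2 * (m + 1) + p * (2 * (2 * m + 1).choose 2) +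
      (t + x1) * (2 * (2 * m + 1 + 1).choose 2) + c * (2 * (m + 1).choose 2) := by ring
  rw [this, e1, e2, e3]
  ring

/-- the identity for the inner step -/
theorem Inn_id (m c x0 x1 x2 p : ℝ) :
    4 * (4 * (x0 + x1 + x2) + c) * ((x0 + x1 + x2) * ((2 * m + 1) * (2 * m + 2)) -
      2 * p * (2 * m + 1) + 2 * x2 * (m + 1) + c * (m * (m + 1))) + (4 * (x0 + x1 + x2) + c) =
    ((2 * m + 1) * (4 * (x0 + x1 + x2) + c) + 2 * (x0 + x1 + x2) + (2 * x2 - 4 * p)) ^ 2 +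
      (-4 * (x0 + x1 + x2) ^ 2 - 4 * (x0 + x1 + x2) * c + 4 * (x0 + x1 + x2) + c - c ^ 2 +
        16 * p * (x0 + x1 + x2) + 8 * x2 * (x0 + x1 + x2) + 4 * x2 * c - (2 * x2 - 4 * p) ^ 2) := by
  ring

/-- the signs of the inner step -/
theorem Inn_sign {n N m c x0 x1 x2 p d : ℕ} (hn : n = 4 * N + c) (hN : 8 ≤ N) (hc : c ≤ 5)
    (hx : x0 + x1 + x2 = N) (hp : p ≤ x0) (hm : 2 * N ≤ m) {T : ℝ}
    (hT : T = √(n : ℝ) * (2 * d + 3) - ((2 * m + 1) * n + 2 * N)) :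
    (-5 < T + 4 * p - 2 * x2 → T + 4 * p - 2 * x2 ≤ -1 →
      (d + 2).choose 2 ≤ Pool.Agent.TH2.NU.condM (Inn m c x0 x1 x2 p)) ∧
    (1 ≤ T + 4 * p - 2 * x2 → Pool.Agent.TH2.NU.condM (Inn m c x0 x1 x2 p) ≤ (d + 2).choose 2) := by
  have e1 := cond_Inn (m := m) (c := c) (x0 := x0) (x1 := x1) (x2 := x2) hp
  have e2 := card_sq n d
  have hNx : (N : ℝ) = x0 + x1 + x2 := by rw [← hx]; push_cast; ring
  have hnx : (n : ℝ) = 4 * (x0 + x1 + x2) + c := by rw [hn, ← hx]; push_cast; ring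
  have hnN : (n : ℝ) = 4 * N + c := by rw [hn]; push_cast; ring
  have e3 := Inn_id m c x0 x1 x2 p
  obtain ⟨τ, hτ⟩ : ∃ τ : ℝ, τ = T + 4 * p - 2 * x2 := ⟨_, rfl⟩
  have e4 : √(n : ℝ) * (2 * d + 3) = (2 * m + 1) * n + 2 * N + (2 * x2 - 4 * p) + τ := by
    rw [hτ, hT]; ring
  rw [← hτ]
  rw [e4] at e2
  rw [← hnx, ← hNx] at e3
  rw [← hNx] at e1
  have hN0 : (8 : ℝ) ≤ N := by exact_mod_cast hN
  have hcR : (c : ℝ) ≤ 5 := by exact_mod_cast hc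
  have hc0 : (0 : ℝ) ≤ c := Nat.cast_nonneg c
  have hmR : 2 * (N : ℝ) ≤ m := by exact_mod_cast hm
  have hp0 : (0 : ℝ) ≤ p := Nat.cast_nonneg p
  have hx20 : (0 : ℝ) ≤ x2 := Nat.cast_nonneg x2
  have hpN : (p : ℝ) + x2 ≤ N := by
    have : p + x2 ≤ N := by omega
    exact_mod_cast this
  obtain ⟨G, hG⟩ : ∃ G : ℝ, G = (2 * m + 1) * n + 2 * N + (2 * x2 - 4 * p) := ⟨_, rfl⟩
  obtain ⟨Δ, hΔ⟩ : ∃ Δ : ℝ, Δ = (-4 * (N : ℝ) ^ 2 - 4 * N * c + 4 * N + c - c ^ 2 +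
        16 * p * N + 8 * x2 * N + 4 * x2 * c - (2 * x2 - 4 * p) ^ 2) := ⟨_, rfl⟩
  rw [← hG, ← hΔ] at e3
  rw [← hG] at e2
  have hG1 : 16 * (N : ℝ) ^ 2 ≤ G := by
    rw [hG, hnN]
    nlinarith
  have hpNN : (p : ℝ) * N ≤ N * N := mul_le_mul_of_nonneg_right (by linarith) (by linarith)
  have hxNN : (x2 : ℝ) * N ≤ N * N := mul_le_mul_of_nonneg_right (by linarith) (by linarith)
  have hpN0 : 0 ≤ (p : ℝ) * N := by positivity
  have hxN0 : 0 ≤ (x2 : ℝ) * N := by positivity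
  have hNc : (N : ℝ) * c ≤ N * 5 := mul_le_mul_of_nonneg_left hcR (by linarith)
  have hNc0 : 0 ≤ (N : ℝ) * c := by positivity
  have hxc : (x2 : ℝ) * c ≤ N * 5 := mul_le_mul (by linarith) hcR hc0 (by linarith)
  have hxc0 : 0 ≤ (x2 : ℝ) * c := by positivity
  have hsq : (2 * (x2 : ℝ) - 4 * p) ^ 2 ≤ (4 * N) ^ 2 := by
    apply sq_le_sq'
    · linarith
    · linarith
  have hcc : (c : ℝ) ^ 2 ≤ 5 ^ 2 := pow_le_pow_left₀ hc0 hcR 2
  have hΔ1 : Δ ≤ 28 * (N : ℝ) ^ 2 := by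
    rw [hΔ]
    nlinarith [sq_nonneg (2 * (x2 : ℝ) - 4 * p), sq_nonneg (c : ℝ)]
  have hΔ2 : -(25 * (N : ℝ) ^ 2) ≤ Δ := by
    rw [hΔ]
    nlinarith
  have hn0 : (0 : ℝ) < n := by rw [hnN]; linarith
  have e5 : 8 * (n : ℝ) * ((condM (Inn m c x0 x1 x2 p) : ℕ) : ℝ) = G ^ 2 + Δ - n := by
    have : 8 * (n : ℝ) * ((condM (Inn m c x0 x1 x2 p) : ℕ) : ℝ) =
      4 * n * (2 * ((condM (Inn m c x0 x1 x2 p) : ℕ) : ℝ)) := by ring
    rw [this, e1]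
    linarith
  have hN2 : 64 ≤ (N : ℝ) ^ 2 := by nlinarith
  have hexp : (G + τ) ^ 2 = G ^ 2 + τ * (2 * G + τ) := by ring
  clear hΔ hG hpNN hxNN hpN0 hxN0 hNc hNc0 hxc hxc0 hsq hcc e1 e3 hτ hT e4
  constructor
  · intro h1 h2
    have h : 8 * (n : ℝ) * (((d + 2).choose 2 : ℕ) : ℝ) ≤
        8 * n * ((condM (Inn m c x0 x1 x2 p) : ℕ) : ℝ) := by
      rw [e2, e5, hexp]
      have h3 : τ * (2 * G + τ) ≤ -1 * (2 * G + τ) :=
        mul_le_mul_of_nonneg_right h2 (by linarith)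
      linarith
    have h2 := le_of_mul_le_mul_left h (by positivity)
    exact_mod_cast h2
  · intro h1
    have h : 8 * n * ((condM (Inn m c x0 x1 x2 p) : ℕ) : ℝ) ≤
        8 * (n : ℝ) * (((d + 2).choose 2 : ℕ) : ℝ) := by
      rw [e2, e5, hexp]
      have h3 : 1 * (2 * G + τ) ≤ τ * (2 * G + τ) :=
        mul_le_mul_of_nonneg_right h1 (by linarith)
      linarith
    have h2 := le_of_mul_le_mul_left h (by positivity)
    exact_mod_cast h2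

end Pool.Agent.X214.NU
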