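import Pool.Agent.H15.G.R_pool_sql_team_seeded_64922ed1.X214.NU.Ends
import Pool.Agent.H15.G.R_seed8.TH641.NW.Win2
import Pool.Agent.H15.G.R_seed8.TH641.NW.Inst

/-! The two windows for `N` points of arbitrary multiplicities `v` and `c` spectators of one
multiplicity `μ`, `n = 4 N + c`: the slope is `n / 4`. -/

set_option autoImplicit false

namespace Pool.Agent.X214.NU

open Finset Pool.Agent.TH176.Nag Pool.Agent.TH603.Sur Pool.Agent.TH603.Cut Pool.Agent.TH181.NagM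
open Pool.Agent.TH648.SH Pool.Agent.TH760.EN Pool.Agent.TH641.NW

theorem Cl_fin {Z ν : ℝ} (hν : 0 < ν) : (Cl Z ν).Finite := by
  apply Set.Finite.subset (Set.finite_Icc ((0, 0) : ℤ × ℤ) (⌊Z⌋, ⌊Z / ν⌋))
  rintro ⟨p, q⟩ ⟨h1, h2, h3⟩
  simp only at h1 h2 h3
  have h1' : (0 : ℝ) ≤ p := by exact_mod_cast h1
  have h2' : (0 : ℝ) ≤ q := by exact_mod_cast h2
  rw [Set.mem_Icc, Prod.le_def, Prod.le_def]
  refine ⟨⟨h1, h2⟩, Int.le_floor.2 ?_, Int.le_floor.2 ?_⟩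
  · simp only
    nlinarith
  · simp only
    rw [le_div_iff₀ hν]
    nlinarith

/-- the closing of the window `E` -/
theorem E_close {N c μ : ℕ} (hE : HE c) (hN : 0 < N) (v : Fin N → ℕ) {Z' : ℝ}
    (hZ : 4 * Z' < 4 * ((∑ j, v j : ℕ) : ℝ) + 2 * c * μ + 4) :
    Emp (Sum.elim v (fun _ : Fin c => μ)) (Cl Z' (N + (c : ℝ) / 4)) := by
  obtain ⟨V, hV⟩ : ∃ V : ℤ, V = ((∑ j, v j : ℕ) : ℤ) := ⟨_, rfl⟩
  have hVR : (V : ℝ) = ((∑ j, v j : ℕ) : ℝ) := by rw [hV]; push_cast; rfl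
  have hν : (0 : ℝ) < N + (c : ℝ) / 4 := by
    have : (0 : ℝ) < N := by exact_mod_cast hN
    positivity
  have hfin := Cl_fin (Z := Z') hν
  have key : ∀ p ∈ Cl Z' (N + (c : ℝ) / 4), 4 * p.1 + (4 * (N : ℤ) + c) * p.2 < 4 * V + 2 * c * μ := by
    rintro p ⟨h1, h2, h3⟩
    have h4 : ((4 * p.1 + (4 * (N : ℤ) + c) * p.2 : ℤ) : ℝ) < ((4 * V + 2 * c * μ : ℤ) : ℝ) := by
      push_cast
      rw [hVR]
      linarith
    exact_mod_cast h4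
  have h1 : Emp v {p : ℤ × ℤ | p ∈ Cl Z' (N + (c : ℝ) / 4) ∧ p.1 + N * p.2 < V} := by
    refine (Emp_Cl v).mono ?_
    rintro p ⟨⟨h1, h2, -⟩, h3⟩
    refine ⟨h1, h2, ?_⟩
    rw [Fintype.card_fin, ← hVR]
    have h4 : p.1 + 1 + N * p.2 ≤ V := by omega
    exact_mod_cast h4
  have h2 : Emp (fun _ : Fin c => μ) {p : ℤ × ℤ | p ∈ Cl Z' (N + (c : ℝ) / 4) ∧ V ≤ p.1 + N * p.2} := by
    refine (hE μ).comap 1 N 0 1 (-V) 0 (by norm_num) ?_
    rintro p ⟨h1, h2⟩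
    have h3 := key p h1
    refine ⟨?_, ?_, ?_⟩
    · simp only; linarith
    · simp only; linarith [h1.2.1]
    · simp only
      linarith
  have h3 := Pool.Agent.TH698.NagT3.Emp_cut (hfin.subset fun p hp => hp.1) (hfin.subset fun p hp => hp.1)
    (fun p hp => ⟨hp.1.1, hp.1.2.1⟩) (fun p hp => ⟨hp.1.1, hp.1.2.1⟩) 1 N
    (fun p hp p' hp' => by
      have := hp.2
      have := hp'.2
      linarith) h1 h2
  refine h3.mono ?_
  intro p hp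
  rcases lt_or_ge (p.1 + N * p.2) V with h | h
  · exact Or.inl ⟨hp, h⟩
  · exact Or.inr ⟨hp, h⟩

/-- the closing of the window `S` -/
theorem S_close {N c : ℕ} (h : HS c) {μ b : ℕ} (v : Fin N → ℕ) (hv : ∀ i, b ≤ v i ∧ v i ≤ b + 1)
    (h1 : b ≤ 2 * μ + 1) (h2 : 2 * μ ≤ b + 1) {Z' : ℝ}
    (hZ : 4 * ((∑ j, v j : ℕ) : ℝ) + 2 * c * μ + c < 4 * Z' + 4) :
    Sur (Sum.elim v (fun _ : Fin c => μ)) (Op Z' (N + (c : ℝ) / 4)) := by
  refine (Sur_tri h v hv h1 h2).mono ?_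
  rintro p ⟨k1, k2, k3, k4⟩
  refine ⟨k1, k2, ?_⟩
  have k5 : ((4 * p.1 + (4 * (N : ℤ) + c) * p.2 + 4 : ℤ) : ℝ) ≤
      ((4 * ((∑ j, v j : ℕ) : ℤ) + 2 * c * μ + c : ℤ) : ℝ) := by exact_mod_cast k4
  push_cast at k5 hZ ⊢
  linarith

/-- **the window `E`** -/
theorem E_win {N c : ℕ} (hE : HE c) {n μ d k σ : ℕ} (v : Fin N → ℕ) (hn : n = 4 * N + c)
    (h36 : 36 ≤ n) (hN : 0 < N) {f : ℝ} (hf : 0 ≤ f) (hσ : (σ : ℝ) + 1 + f = N + (c : ℝ) / 4)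
    (hk : (n : ℝ) / 8 - 11 / 12 * √(n : ℝ) ≤ k) (hkd : √(n : ℝ) * k ≤ 2 * d)
    (h : √(n : ℝ) * (2 * d + 3) + 2 * √(n : ℝ) / 3 + 9 / 2 + 4 * f <
      4 * ((∑ j, v j : ℕ) : ℝ) + 2 * c * μ + n / 2) :
    Emp (Sum.elim v (fun _ : Fin c => μ)) (TZ d) := by
  have hnR : (36 : ℝ) ≤ n := by exact_mod_cast h36
  have hnac : (n : ℝ) = 4 * N + c := by rw [hn]; push_cast; ring
  obtain ⟨s, hs⟩ : ∃ s : ℝ, s = √(n : ℝ) := ⟨_, rfl⟩
  have hss : s * s = n := by rw [hs]; exact Real.mul_self_sqrt (by linarith)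
  have hs6 : 6 ≤ s := by rw [hs]; exact Real.le_sqrt_of_sq_le (by norm_num; linarith)
  have hs0 : 0 < s := by linarith
  rw [← hs] at hk hkd h
  obtain ⟨V, hV⟩ : ∃ V : ℝ, V = ((∑ j, v j : ℕ) : ℝ) := ⟨_, rfl⟩
  rw [← hV] at h
  obtain ⟨J, hJ⟩ : ∃ J : ℕ, J = ⌊2 * (d : ℝ) / s⌋₊ := ⟨_, rfl⟩
  have hJ1 : s * J ≤ 2 * d := by
    have := Nat.floor_le (show 0 ≤ 2 * (d : ℝ) / s by positivity)
    rw [← hJ, le_div_iff₀ hs0] at this
    linarith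
  have hJ2 : 2 * (d : ℝ) < s * (J + 1) := by
    have := Nat.lt_floor_add_one (2 * (d : ℝ) / s)
    rw [← hJ, div_lt_iff₀ hs0] at this
    linarith
  have hkJ : k ≤ J := by
    have h3 := lt_of_mul_lt_mul_left (hkd.trans_lt hJ2) hs0.le
    have h4 : k < J + 1 := by exact_mod_cast h3
    omega
  have hkJR : (k : ℝ) ≤ J := by exact_mod_cast hkJ
  -- a real slightly below the bound
  obtain ⟨ε, hε0, hε⟩ : ∃ ε : ℝ, 0 < ε ∧
      s * (2 * d + 3) + 2 * s / 3 + 9 / 2 + 4 * f + ε ≤ 4 * V + 2 * c * μ + n / 2 :=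
    ⟨4 * V + 2 * c * μ + n / 2 - (s * (2 * d + 3) + 2 * s / 3 + 9 / 2 + 4 * f), by linarith, by linarith⟩
  obtain ⟨Z', hZ'⟩ : ∃ Z' : ℝ, Z' = V + c * μ / 2 + 1 - ε / 4 := ⟨_, rfl⟩
  have hK2 : (3 / 2 * s) ^ 2 / 9 = N + (c : ℝ) / 4 := by
    have : (3 / 2 * s) ^ 2 / 9 = (s * s) / 4 := by ring
    rw [this, hss, hnac]
    ring
  have hmain : s / 2 * (d + 3 / 2) + s / 6 + 9 / 8 + 1 + f ≤ Z' + n / 8 := by
    rw [hZ']
    linarith
  refine Emp_err keyE (K := 3 / 2 * s) (e := 3 / 2 * s / 9 + 9 / 8) (Z' := Z') (σ := σ) (J := J)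
    (by linarith) ?_ ?_ ?_ ?_ ?_ ?_ ?_
  · rw [hK2]; linarith
  · linarith
  · linarith
  · intro x Y hY B hB
    have := up_row2 (x := x) (Y := Y) (by linarith) hY hB
    linarith
  · have e1 : (3 / 2 * s) ^ 2 / 18 = n / 8 := by
      have : (3 / 2 * s) ^ 2 / 18 = (s * s) / 8 := by ring
      rw [this, hss]
    rw [hK2, e1]
    have e2 : (N : ℝ) + c / 4 - σ = 1 + f := by linarith
    rw [e2]
    have e3 : 3 / 2 * s / 3 * ((d : ℝ) + 3 / 2) = s / 2 * (d + 3 / 2) := by ring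
    rw [e3]
    linarith
  · obtain ⟨Y, hY⟩ : ∃ Y : ℝ, Y = 3 * d - 3 / 2 * s * J := ⟨_, rfl⟩
    rw [← hY]
    have hY0 : 0 ≤ Y := by rw [hY]; linarith
    have hYK : Y < 3 / 2 * s := by rw [hY]; linarith
    obtain ⟨z, hz⟩ : ∃ z : ℝ, z = 3 / 2 * s - Y := ⟨_, rfl⟩
    have hz0 : 0 < z := by rw [hz]; linarith
    have hzK : z ≤ 3 / 2 * s := by rw [hz]; linarith
    have e1 : s / 2 * (d : ℝ) = (N + (c : ℝ) / 4) * J + s * Y / 6 := by
      rw [hY]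
      have : (N : ℝ) + c / 4 = (s * s) / 4 := by rw [hss, hnac]; ring
      rw [this]
      ring
    have hσJ : (N + (c : ℝ) / 4) * J = σ * J + (1 + f) * J := by
      rw [← hσ]; ring
    -- the convex function
    have hcv : z ^ 2 / 18 - 11 / 18 * z ≤ J := by
      rcases le_total z 11 with h11 | h11
      · have : z * z ≤ z * 11 := mul_le_mul_of_nonneg_left h11 hz0.le
        have hJ0 : (0 : ℝ) ≤ J := Nat.cast_nonneg J
        linarith [this, sq z]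
      · have h12 : (z - 11) * z ≤ (3 / 2 * s - 11) * (3 / 2 * s) :=
          mul_le_mul (by linarith) hzK hz0.le (by linarith)
        have h13 : (3 / 2 * s - 11) * (3 / 2 * s) = 18 * (n / 8 - 11 / 12 * s) := by
          rw [← hss]; ring
        rw [h13] at h12
        linarith [sq z]
    have e2 : z ^ 2 / 18 = n / 8 - s * Y / 6 + Y ^ 2 / 18 := by
      rw [hz, ← hss]; ring
    have hfJ : 0 ≤ f * J := mul_nonneg hf (Nat.cast_nonneg J)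
    rw [e2, hz] at hcv
    linarith
  · rw [hK2]
    apply E_close hE hN
    rw [← hV, hZ']
    linarith

/-- **the window `S`** -/
theorem S_win {N c : ℕ} (h : HS c) {n μ b d : ℕ} (v : Fin N → ℕ) (hv : ∀ i, b ≤ v i ∧ v i ≤ b + 1)
    (h1 : b ≤ 2 * μ + 1) (h2 : 2 * μ ≤ b + 1) (hn : n = 4 * N + c) (h37 : 37 ≤ n)
    (hd : 4 * ((∑ j, v j : ℕ) : ℝ) + 2 * c * μ + n / 2 + 2 * √(n : ℝ) / 3 + c + 1 / 2 <
      √(n : ℝ) * (2 * d + 3)) :
    Sur (Sum.elim v (fun _ : Fin c => μ)) (TZ d) := by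
  have hnR : (37 : ℝ) ≤ n := by exact_mod_cast h37
  have hnac : (n : ℝ) = 4 * N + c := by rw [hn]; push_cast; ring
  obtain ⟨s, hs⟩ : ∃ s : ℝ, s = √(n : ℝ) := ⟨_, rfl⟩
  have hss : s * s = n := by rw [hs]; exact Real.mul_self_sqrt (by linarith)
  have hs6 : 6.05 ≤ s := by rw [hs]; exact Real.le_sqrt_of_sq_le (by norm_num; linarith)
  have hs0 : 0 < s := by linarith
  rw [← hs] at hd
  obtain ⟨V, hV⟩ : ∃ V : ℝ, V = ((∑ j, v j : ℕ) : ℝ) := ⟨_, rfl⟩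
  rw [← hV] at hd
  -- an irrational slope slightly smaller than `3 s / 2`
  obtain ⟨g, hg⟩ : ∃ g : ℝ, g = s * (2 * d + 3) - (4 * V + 2 * c * μ + n / 2 + 2 * s / 3 + c + 1 / 2) :=
    ⟨_, rfl⟩
  have hg0 : 0 < g := by rw [hg]; linarith
  obtain ⟨η, hη0, hη1, hη2⟩ : ∃ η : ℝ, 0 < η ∧ η ≤ 0.07 ∧ η * (4 / 3 * (d + 3 / 2)) ≤ g / 2 := by
    have hd' : 0 < 4 / 3 * ((d : ℝ) + 3 / 2) := by positivity
    refine ⟨min 0.07 (g / 2 / (4 / 3 * (d + 3 / 2))), ?_, min_le_left _ _, ?_⟩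
    · exact lt_min (by norm_num) (by positivity)
    · have h2 := mul_le_mul_of_nonneg_right (min_le_right (0.07 : ℝ)
        (g / 2 / (4 / 3 * ((d : ℝ) + 3 / 2)))) hd'.le
      rwa [div_mul_cancel₀ _ hd'.ne'] at h2
  obtain ⟨K, hKirr, hK1, hK2⟩ := exists_irrational_btwn (show 3 / 2 * s - η < 3 / 2 * s by linarith)
  have hK9 : 9 ≤ K := by linarith
  have hKs : K ^ 2 / 9 ≤ N + (c : ℝ) / 4 := by
    have : K ^ 2 ≤ (3 / 2 * s) ^ 2 := pow_le_pow_left₀ (by linarith) hK2.le 2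
    have e : (3 / 2 * s) ^ 2 = 9 * (N + (c : ℝ) / 4) := by
      have : (3 / 2 * s) ^ 2 = 9 / 4 * (s * s) := by ring
      rw [this, hss, hnac]; ring
    linarith
  obtain ⟨Z', hZ'⟩ : ∃ Z' : ℝ, Z' = V + c * μ / 2 + c / 4 - 1 + g / 8 := ⟨_, rfl⟩
  have hmain : Z' + n / 8 + K / 9 + 9 / 8 ≤ K / 3 * ((d : ℝ) + 3 / 2) := by
    have h3 : (3 / 2 * s - η) / 3 * ((d : ℝ) + 3 / 2) ≤ K / 3 * (d + 3 / 2) :=
      mul_le_mul_of_nonneg_right (by linarith) (by positivity)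
    have h4 : (3 / 2 * s - η) / 3 * ((d : ℝ) + 3 / 2) =
        s * (2 * d + 3) / 4 - η * (4 / 3 * (d + 3 / 2)) / 4 := by ring
    rw [h4] at h3
    rw [hZ']
    linarith
  refine Sur_pl keyS hK9 hKirr (n' := N + (c : ℝ) / 4) (Z' := Z') ?_ ?_
  · intro x j hj
    have hj0 : (0 : ℝ) ≤ j := Nat.cast_nonneg j
    have hY : 0 ≤ 3 * (d : ℝ) - K * j := by
      have h3 : K * j ≤ 3 / 2 * s * j := mul_le_mul_of_nonneg_right hK2.le hj0
      have h4 : s * (3 / 2 * s * j) < s * (3 * d) := by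
        have e : s * (3 / 2 * s * (j : ℝ)) = 6 * ((N + (c : ℝ) / 4) * j) := by
          have : (N : ℝ) + c / 4 = (s * s) / 4 := by rw [hss, hnac]; ring
          rw [this]; ring
        rw [e]
        have h5 : K / 3 * ((d : ℝ) + 3 / 2) ≤ s / 2 * (d + 3 / 2) :=
          mul_le_mul_of_nonneg_right (by linarith) (by positivity)
        have h6 : 3 / 4 * s ≤ n / 8 + K / 9 + 9 / 8 := by
          rw [← hss]; nlinarith
        linarith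
      have h5 := lt_of_mul_lt_mul_left h4 hs0.le
      linarith
    obtain ⟨B, hB1, hB2⟩ := low_row2 (x := x) hK9 hY
    refine ⟨B, hB1, ?_⟩
    rw [ell_row] at hB2
    have h7 : K ^ 2 / 9 * j ≤ (N + (c : ℝ) / 4) * j := mul_le_mul_of_nonneg_right hKs hj0
    have h8 : K ^ 2 / 18 ≤ n / 8 := by
      rw [hnac]; linarith
    linarith
  · apply S_close h v hv h1 h2
    rw [← hV, hZ']
    linarith

end Pool.Agent.X214.NU
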